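import Mathlib

set_option autoImplicit false

open scoped InnerProductSpace ENNReal
open Filter Topology

namespace Pool.Agent.X202.Agl

noncomputable abbrev H2 := lp (fun _ : ℕ × ℕ => ℂ) 2

noncomputable section

theorem ext_mem (σ : ℕ × ℕ → ℕ × ℕ) (hσ : Function.Injective σ) (f : H2) :
    Memℓp (E := fun _ : ℕ × ℕ => ℂ) (Function.extend σ (f : ℕ × ℕ → ℂ) 0) 2 := by
  have h1 := lp.memℓp f
  rw [memℓp_gen_iff (by norm_num)] at h1 ⊢
  have h2 : (fun i => ‖Function.extend σ (f : ℕ × ℕ → ℂ) 0 i‖ ^ (2 : ℝ≥0∞).toReal) =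
      Function.extend σ (fun i => ‖f i‖ ^ (2 : ℝ≥0∞).toReal) 0 := by
    funext i
    by_cases hi : ∃ a, σ a = i
    · obtain ⟨a, rfl⟩ := hi
      rw [hσ.extend_apply, hσ.extend_apply]
    · rw [Function.extend_apply' _ _ _ hi, Function.extend_apply' _ _ _ hi]
      simp
  rw [h2]
  exact (summable_extend_zero hσ).2 h1

def sh (σ : ℕ × ℕ → ℕ × ℕ) (hσ : Function.Injective σ) : H2 →ₗᵢ[ℂ] H2 where
  toFun f := ⟨Function.extend σ (f : ℕ × ℕ → ℂ) 0, ext_mem σ hσ f⟩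
  map_add' f g := by
    ext i
    change Function.extend σ ((f + g : H2) : ℕ × ℕ → ℂ) 0 i = Function.extend σ (f : ℕ × ℕ → ℂ) 0 i +
      Function.extend σ (g : ℕ × ℕ → ℂ) 0 i
    by_cases hi : ∃ a, σ a = i
    · obtain ⟨a, rfl⟩ := hi
      rw [hσ.extend_apply, hσ.extend_apply, hσ.extend_apply]; rfl
    · rw [Function.extend_apply' _ _ _ hi, Function.extend_apply' _ _ _ hi,
        Function.extend_apply' _ _ _ hi]; simp
  map_smul' c f := by
    ext i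
    change Function.extend σ ((c • f : H2) : ℕ × ℕ → ℂ) 0 i = c * Function.extend σ (f : ℕ × ℕ → ℂ) 0 i
    by_cases hi : ∃ a, σ a = i
    · obtain ⟨a, rfl⟩ := hi
      rw [hσ.extend_apply, hσ.extend_apply]; rfl
    · rw [Function.extend_apply' _ _ _ hi, Function.extend_apply' _ _ _ hi]; simp
  norm_map' f := by
    have e1 := lp.norm_rpow_eq_tsum (p := 2) (by norm_num)
      (⟨Function.extend σ (f : ℕ × ℕ → ℂ) 0, ext_mem σ hσ f⟩ : H2)
    have e2 := lp.norm_rpow_eq_tsum (p := 2) (by norm_num) f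
    have e3 : ∑' i, ‖Function.extend σ (f : ℕ × ℕ → ℂ) 0 i‖ ^ (2 : ℝ≥0∞).toReal =
        ∑' i, ‖f i‖ ^ (2 : ℝ≥0∞).toReal := by
      rw [← hσ.tsum_eq (f := fun i => ‖Function.extend σ (f : ℕ × ℕ → ℂ) 0 i‖ ^ (2 : ℝ≥0∞).toReal)]
      · refine tsum_congr fun i => ?_
        rw [hσ.extend_apply]
      · intro i hi
        by_contra hn
        apply hi
        have : ¬ ∃ a, σ a = i := fun ⟨a, ha⟩ => hn ⟨a, ha⟩
        simp [Function.extend_apply' _ _ _ this]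
    have e4 : ‖(⟨Function.extend σ (f : ℕ × ℕ → ℂ) 0, ext_mem σ hσ f⟩ : H2)‖ ^ (2 : ℝ≥0∞).toReal =
        ‖f‖ ^ (2 : ℝ≥0∞).toReal := by
      rw [e1, e2]
      exact e3
    have h2 : (2 : ℝ≥0∞).toReal = 2 := by norm_num
    rw [h2, Real.rpow_two, Real.rpow_two] at e4
    exact (sq_eq_sq₀ (norm_nonneg _) (norm_nonneg _)).1 e4

def s1 : ℕ × ℕ → ℕ × ℕ := fun n => (n.1 + 1, n.2)
def s2 : ℕ × ℕ → ℕ × ℕ := fun n => (n.1, n.2 + 1)

theorem s1_inj : Function.Injective s1 := by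
  rintro ⟨a, b⟩ ⟨c, d⟩ h
  simp [s1] at h
  simp [h]

theorem s2_inj : Function.Injective s2 := by
  rintro ⟨a, b⟩ ⟨c, d⟩ h
  simp [s2] at h
  simp [h]

theorem sh_apply (σ : ℕ × ℕ → ℕ × ℕ) (hσ : Function.Injective σ) (f : H2) (n : ℕ × ℕ) :
    sh σ hσ f (σ n) = f n := hσ.extend_apply _ _ _

theorem sh_apply' (σ : ℕ × ℕ → ℕ × ℕ) (hσ : Function.Injective σ) (f : H2) (n : ℕ × ℕ)
    (h : ¬ ∃ a, σ a = n) : sh σ hσ f n = 0 := Function.extend_apply' _ _ _ h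

def V : H2 →L[ℂ] H2 := (sh s1 s1_inj).toContinuousLinearMap
def W : H2 →L[ℂ] H2 := (sh s2 s2_inj).toContinuousLinearMap
def V' : H2 →L[ℂ] H2 := ContinuousLinearMap.adjoint V
def W' : H2 →L[ℂ] H2 := ContinuousLinearMap.adjoint W

theorem V_zero (f : H2) (l : ℕ) : V f (0, l) = 0 :=
  sh_apply' s1 s1_inj f (0, l) (by rintro ⟨a, ha⟩; simp [s1] at ha)
theorem V_succ (f : H2) (k l : ℕ) : V f (k + 1, l) = f (k, l) := sh_apply s1 s1_inj f (k, l)
theorem W_zero (f : H2) (k : ℕ) : W f (k, 0) = 0 :=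
  sh_apply' s2 s2_inj f (k, 0) (by rintro ⟨a, ha⟩; simp [s2] at ha)
theorem W_succ (f : H2) (k l : ℕ) : W f (k, l + 1) = f (k, l) := sh_apply s2 s2_inj f (k, l)

theorem sh_single (σ : ℕ × ℕ → ℕ × ℕ) (hσ : Function.Injective σ) (n : ℕ × ℕ) (c : ℂ) :
    sh σ hσ (lp.single 2 n c : H2) = lp.single 2 (σ n) c := by
  classical
  ext i
  by_cases hi : ∃ a, σ a = i
  · obtain ⟨a, rfl⟩ := hi
    rw [sh_apply]
    by_cases h : a = n
    · subst h
      simp [lp.coeFn_single]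
    · have h2 : σ a ≠ σ n := fun h' => h (hσ h')
      simp [lp.coeFn_single, h, h2]
  · rw [sh_apply' _ _ _ _ hi]
    have h2 : i ≠ σ n := fun h' => hi ⟨n, h'.symm⟩
    simp [lp.coeFn_single, h2]

theorem adj_apply (σ : ℕ × ℕ → ℕ × ℕ) (hσ : Function.Injective σ) (f : H2) (n : ℕ × ℕ) :
    ContinuousLinearMap.adjoint (sh σ hσ).toContinuousLinearMap f n = f (σ n) := by
  classical
  have h1 : ⟪(lp.single 2 n (1 : ℂ) : H2),
      ContinuousLinearMap.adjoint (sh σ hσ).toContinuousLinearMap f⟫_ℂ =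
      ⟪(sh σ hσ).toContinuousLinearMap (lp.single 2 n (1 : ℂ) : H2), f⟫_ℂ :=
    ContinuousLinearMap.adjoint_inner_right _ _ _
  have h2 : (sh σ hσ).toContinuousLinearMap (lp.single 2 n (1 : ℂ) : H2) =
      lp.single 2 (σ n) (1 : ℂ) := sh_single σ hσ n 1
  rw [h2, lp.inner_single_left, lp.inner_single_left] at h1
  simpa using h1

theorem V'_apply (f : H2) (k l : ℕ) : V' f (k, l) = f (k + 1, l) := adj_apply s1 s1_inj f (k, l)
theorem W'_apply (f : H2) (k l : ℕ) : W' f (k, l) = f (k, l + 1) := adj_apply s2 s2_inj f (k, l)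

theorem V'V (f : H2) : V' (V f) = f := by
  ext ⟨k, l⟩; rw [V'_apply, V_succ]
theorem W'W (f : H2) : W' (W f) = f := by
  ext ⟨k, l⟩; rw [W'_apply, W_succ]
theorem WV (f : H2) : W (V f) = V (W f) := by
  ext ⟨k, l⟩
  rcases k with _ | k <;> rcases l with _ | l <;>
    simp only [V_zero, V_succ, W_zero, W_succ]
theorem W'V (f : H2) : W' (V f) = V (W' f) := by
  ext ⟨k, l⟩
  rcases k with _ | k <;> simp only [V_zero, V_succ, W'_apply]
theorem WV' (f : H2) : W (V' f) = V' (W f) := by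
  ext ⟨k, l⟩
  rcases l with _ | l <;> simp only [V'_apply, W_zero, W_succ]
theorem W'V' (f : H2) : W' (V' f) = V' (W' f) := by
  ext ⟨k, l⟩
  simp only [V'_apply, W'_apply]

theorem V_inner (f g : H2) : ⟪V f, g⟫_ℂ = ⟪f, V' g⟫_ℂ :=
  (ContinuousLinearMap.adjoint_inner_right V f g).symm
theorem V'_inner (f g : H2) : ⟪V' f, g⟫_ℂ = ⟪f, V g⟫_ℂ :=
  ContinuousLinearMap.adjoint_inner_left V g f
theorem W_inner (f g : H2) : ⟪W f, g⟫_ℂ = ⟪f, W' g⟫_ℂ :=
  (ContinuousLinearMap.adjoint_inner_right W f g).symm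
theorem W'_inner (f g : H2) : ⟪W' f, g⟫_ℂ = ⟪f, W g⟫_ℂ :=
  ContinuousLinearMap.adjoint_inner_left W g f

end

end Pool.Agent.X202.Agl
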