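import Pool.Agent.X202.Agl.A

set_option autoImplicit false

open scoped InnerProductSpace ENNReal
open Filter Topology

namespace Pool.Agent.X202.Agl

noncomputable section

/-- `b(V)`, `b = z^2 - z + 1` -/
def B : H2 →L[ℂ] H2 := V ∘L V - V + ContinuousLinearMap.id ℂ H2
def B' : H2 →L[ℂ] H2 := V' ∘L V' - V' + ContinuousLinearMap.id ℂ H2
def P : H2 →L[ℂ] H2 := (4 : ℂ) • ContinuousLinearMap.id ℂ H2 + B ∘L W
def P' : H2 →L[ℂ] H2 := (4 : ℂ) • ContinuousLinearMap.id ℂ H2 + B' ∘L W'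
/-- `4 z₁² z₂ + b` -/
def Q : H2 →L[ℂ] H2 := (4 : ℂ) • (V ∘L V ∘L W) + B

theorem B_apply (f : H2) : B f = V (V f) - V f + f := rfl
theorem B'_apply (f : H2) : B' f = V' (V' f) - V' f + f := rfl
theorem P_apply (f : H2) : P f = (4 : ℂ) • f + B (W f) := rfl
theorem P'_apply (f : H2) : P' f = (4 : ℂ) • f + B' (W' f) := rfl
theorem Q_apply (f : H2) : Q f = (4 : ℂ) • V (V (W f)) + B f := rfl

theorem P_inner (f g : H2) : ⟪P f, g⟫_ℂ = ⟪f, P' g⟫_ℂ := by
  simp only [P_apply, P'_apply, B_apply, B'_apply, inner_add_left, inner_add_right, inner_sub_left,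
    inner_sub_right, inner_smul_left, inner_smul_right, V_inner, W_inner]
  simp only [W'V']
  simp only [Complex.conj_ofNat]

theorem norm_V (f : H2) : ‖V f‖ = ‖f‖ := (sh s1 s1_inj).norm_map f
theorem norm_W (f : H2) : ‖W f‖ = ‖f‖ := (sh s2 s2_inj).norm_map f

theorem norm_BW (f : H2) : ‖B (W f)‖ ≤ 3 * ‖f‖ := by
  rw [B_apply]
  calc ‖V (V (W f)) - V (W f) + W f‖ ≤ ‖V (V (W f)) - V (W f)‖ + ‖W f‖ := norm_add_le _ _
    _ ≤ ‖V (V (W f))‖ + ‖V (W f)‖ + ‖W f‖ := by gcongr; exact norm_sub_le _ _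
    _ = 3 * ‖f‖ := by simp only [norm_V, norm_W]; ring

/-- `P` is invertible -/
theorem exists_R : ∃ R : H2 →L[ℂ] H2, (∀ f, R (P f) = f) ∧ ∀ f, P (R f) = f := by
  have h1 : ‖(-(1 / 4 : ℂ)) • (B ∘L W)‖ < 1 := by
    have h2 : ‖B ∘L W‖ ≤ 3 := ContinuousLinearMap.opNorm_le_bound _ (by norm_num) norm_BW
    rw [norm_smul]
    have h3 : ‖(-(1 / 4 : ℂ))‖ = 1 / 4 := by simp
    rw [h3]
    linarith
  have h2 := isUnit_one_sub_of_norm_lt_one h1
  obtain ⟨u, hu⟩ := h2
  refine ⟨(1 / 4 : ℂ) • (u⁻¹ : (H2 →L[ℂ] H2)ˣ), ?_, ?_⟩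
  all_goals
    intro f
    have hP : ∀ g, P g = (4 : ℂ) • (u : H2 →L[ℂ] H2) g := by
      intro g
      rw [hu, P_apply]
      simp [ContinuousLinearMap.sub_apply, smul_sub, smul_smul]
  · rw [hP]
    simp only [ContinuousLinearMap.smul_apply, map_smul, smul_smul]
    have h3 : (u⁻¹ : (H2 →L[ℂ] H2)ˣ).val (u.val f) = f := by
      exact congrArg (fun T : H2 →L[ℂ] H2 => T f) u.inv_mul
    rw [h3]; norm_num
  · rw [hP]
    simp only [ContinuousLinearMap.smul_apply, map_smul, smul_smul]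
    have h3 : u.val ((u⁻¹ : (H2 →L[ℂ] H2)ˣ).val f) = f := by
      exact congrArg (fun T : H2 →L[ℂ] H2 => T f) u.mul_inv
    rw [h3]; norm_num

theorem VP (f : H2) : V (P f) = P (V f) := by
  simp only [P_apply, B_apply, map_add, map_sub, map_smul, WV]
theorem WP (f : H2) : W (P f) = P (W f) := by
  simp only [P_apply, B_apply, map_add, map_sub, map_smul, WV]

/-- `K_θ` -/
def K : Submodule ℂ H2 := LinearMap.ker (W' ∘L V' ∘L V' ∘L P : H2 →L[ℂ] H2).toLinearMap
def S2 : Submodule ℂ H2 := LinearMap.ker (V' ∘L V' ∘L P : H2 →L[ℂ] H2).toLinearMap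
def S1 : Submodule ℂ H2 := K ⊓ S2ᗮ

theorem mem_K (f : H2) : f ∈ K ↔ W' (V' (V' (P f))) = 0 := Iff.rfl
theorem mem_S2 (f : H2) : f ∈ S2 ↔ V' (V' (P f)) = 0 := Iff.rfl

theorem S2_le : S2 ≤ K := by
  intro f hf
  rw [mem_S2] at hf
  rw [mem_K, hf, map_zero]

theorem S2_closed : IsClosed (S2 : Set H2) :=
  ContinuousLinearMap.isClosed_ker (V' ∘L V' ∘L P : H2 →L[ℂ] H2)
theorem K_closed : IsClosed (K : Set H2) :=
  ContinuousLinearMap.isClosed_ker (W' ∘L V' ∘L V' ∘L P : H2 →L[ℂ] H2)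
theorem S1_closed : IsClosed (S1 : Set H2) := by
  have : (S1 : Set H2) = (K : Set H2) ∩ (S2ᗮ : Submodule ℂ H2) := rfl
  rw [this]
  exact K_closed.inter (Submodule.isClosed_orthogonal _)

theorem sum_K (h : H2) : h ∈ K ↔ ∃ f ∈ S1, ∃ g ∈ S2, h = f + g := by
  constructor
  · intro hh
    haveI : CompleteSpace S2 := S2_closed.completeSpace_coe
    refine ⟨h - S2.starProjection h, ⟨?_, ?_⟩, S2.starProjection h, ?_, by abel⟩
    · exact K.sub_mem hh (S2_le (Submodule.starProjection_apply_mem _ _))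
    · exact Submodule.sub_starProjection_mem_orthogonal h
    · exact Submodule.starProjection_apply_mem _ _
  · rintro ⟨f, hf, g, hg, rfl⟩
    exact K.add_mem hf.1 (S2_le hg)

theorem S2_inv (f : H2) (hf : f ∈ S2) : W f ∈ S2 := by
  rw [mem_S2] at hf ⊢
  rw [← WP, ← WV', ← WV', hf, map_zero]

theorem S1_inv (f : H2) (hf : f ∈ S1) : V f ∈ S1 := by
  obtain ⟨R, hRP, hPR⟩ := exists_R
  obtain ⟨hK, hO⟩ := hf
  set R' := ContinuousLinearMap.adjoint R with hR'
  have hR'P' : ∀ g, R' (P' g) = g := by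
    intro g
    refine ext_inner_left ℂ fun x => ?_
    rw [hR', ContinuousLinearMap.adjoint_inner_right, ← P_inner, hPR]
  have hP'R' : ∀ g, P' (R' g) = g := by
    intro g
    refine ext_inner_left ℂ fun x => ?_
    rw [← P_inner, hR', ContinuousLinearMap.adjoint_inner_right, hRP]
  -- f = P' V V w
  obtain ⟨w, hw⟩ : ∃ w, f = P' (V (V w)) := by
    set v := R' f with hv
    refine ⟨V' (V' v), ?_⟩
    have hx : v - V (V (V' (V' v))) = 0 := by
      set x := v - V (V (V' (V' v))) with hxd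
      have h1 : V' (V' x) = 0 := by
        rw [hxd]; simp only [map_sub, V'V, sub_self]
      have h2 : R x ∈ S2 := by rw [mem_S2, hPR, h1]
      have h3 : ⟪R x, f⟫_ℂ = 0 := hO (R x) h2
      have h4 : ⟪x, v⟫_ℂ = 0 := by
        rw [hv, hR', ContinuousLinearMap.adjoint_inner_right, h3]
      have h5 : ⟪x, V (V (V' (V' v)))⟫_ℂ = 0 := by
        rw [← V'_inner, ← V'_inner, h1, inner_zero_left]
      have h6 : ⟪x, x⟫_ℂ = 0 := by
        conv_lhs => rw [hxd]
        rw [← hxd]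
        have : ⟪x, v - V (V (V' (V' v)))⟫_ℂ = 0 := by rw [inner_sub_right, h4, h5, sub_zero]
        exact this
      exact inner_self_eq_zero.1 h6
    have h7 : v = V (V (V' (V' v))) := sub_eq_zero.1 hx
    rw [← h7, hv, hP'R']
  have hf1 : f = (4 : ℂ) • V (V w) + B (W' w) := by
    rw [hw, P'_apply, B'_apply, B_apply]
    simp only [W'V, V'V]
    abel
  have hy : (4 : ℂ) • W' w + B w = 0 := by
    have h8 : P' ((4 : ℂ) • W' w + B w) = 0 := by
      have hK := (mem_K f).1 hK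
      rw [hf1] at hK
      rw [← hK]
      simp only [P'_apply, P_apply, B'_apply, B_apply, map_add, map_sub, map_smul, W'V, V'V, WV, W'W,
        W'V', WV']
      module
    rw [← hR'P' ((4 : ℂ) • W' w + B w), h8, map_zero]
  have hBw : B w = -((4 : ℂ) • W' w) := by rw [eq_neg_iff_add_eq_zero, add_comm, hy]
  have hWP : W' (P f) = 0 := by
    have h9 : W' (P f) = (4 : ℂ) • W' f + B f := by
      rw [P_apply]; simp only [B_apply, map_add, map_sub, map_smul, W'V, W'W]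
    rw [h9, hf1]
    have h10 : (4 : ℂ) • W' ((4 : ℂ) • V (V w) + B (W' w)) + B ((4 : ℂ) • V (V w) + B (W' w)) =
        (4 : ℂ) • V (V ((4 : ℂ) • W' w + B w)) + B (W' ((4 : ℂ) • W' w + B w)) := by
      simp only [B_apply, map_add, map_sub, map_smul, W'V]
      module
    rw [h10, hy]
    simp
  refine ⟨?_, ?_⟩
  · change V f ∈ K
    rw [mem_K, ← VP, V'V, W'V', hWP, map_zero]
  · intro s hs
    rw [mem_S2] at hs
    have h11 : V f = P' (V (V (V w))) := by
      rw [hf1, P'_apply, B'_apply, B_apply]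
      simp only [W'V, V'V, map_add, map_sub, map_smul]
      abel
    rw [h11, ← P_inner, ← V'_inner, ← V'_inner, hs, inner_zero_left]

end

end Pool.Agent.X202.Agl
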