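import Pool.Agent.X202.Agl.B

set_option autoImplicit false

open scoped InnerProductSpace ENNReal ComplexConjugate
open Filter Topology MeasureTheory

namespace Pool.Agent.X202.Agl

noncomputable section

/-- the algebraic identity -/
theorem step (e x y z : ℂ) (he : e * conj e = 1) (hz : 4 * z + e * (z - y + x) = 0) :
    ‖(4 + e) * y - (4 + e + conj e) * x‖ ^ 2 - ‖(4 + e) * z - (4 + e + conj e) * y‖ ^ 2 =
      ((4 + 2 * e.re) ^ 2 - 1) * (‖x‖ ^ 2 - 2 * (conj y * x).re) := by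
  have h1 : (4 + e) * z - (4 + e + conj e) * y = -(4 + conj e) * y - e * x := by
    linear_combination hz
  rw [h1]
  have h2 : ∀ w : ℂ, ((‖w‖ ^ 2 : ℝ) : ℂ) = w * conj w := by
    intro w; rw [Complex.mul_conj, Complex.normSq_eq_norm_sq]
  have h3 : ((2 * (conj y * x).re : ℝ) : ℂ) = conj y * x + y * conj x := by
    have := Complex.add_conj (conj y * x)
    rw [map_mul, Complex.conj_conj] at this
    rw [← this]
  have h4 : ((4 + 2 * e.re : ℝ) : ℂ) = 4 + e + conj e := by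
    have := Complex.add_conj e
    push_cast at this ⊢
    rw [← this]; ring
  apply Complex.ofReal_injective
  have h5 : (((((4 + 2 * e.re) ^ 2 - 1) * (‖x‖ ^ 2 - 2 * (conj y * x).re) : ℝ)) : ℂ) =
      ((4 + e + conj e) ^ 2 - 1) * (x * conj x - (conj y * x + y * conj x)) := by
    rw [← h4, ← h2 x, ← h3]; push_cast; ring
  rw [h5, Complex.ofReal_sub, h2, h2]
  simp only [map_sub, map_add, map_mul, map_neg, Complex.conj_conj, Complex.conj_ofNat]
  linear_combination (-(x * conj x - (conj y * x + y * conj x))) * he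

theorem partial_sum (e : ℂ) (he : ‖e‖ = 1) (x : ℕ → ℂ)
    (hx : ∀ k, 4 * x (k + 2) + e * (x (k + 2) - x (k + 1) + x k) = 0) (n : ℕ) :
    0 ≤ (∑ k ∈ Finset.range n, (‖x k‖ ^ 2 - 2 * (conj (x (k + 1)) * x k).re)) +
      24 * (‖x n‖ ^ 2 + ‖x (n + 1)‖ ^ 2) := by
  have he' : e * conj e = 1 := by
    rw [Complex.mul_conj, Complex.normSq_eq_norm_sq, he]; norm_num
  set M : ℝ := (4 + 2 * e.re) ^ 2 - 1 with hM
  set h : ℕ → ℝ := fun k => ‖(4 + e) * x (k + 1) - (4 + e + conj e) * x k‖ ^ 2 with hh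
  have h1 : M * (∑ k ∈ Finset.range n, (‖x k‖ ^ 2 - 2 * (conj (x (k + 1)) * x k).re)) =
      h 0 - h n := by
    rw [Finset.mul_sum, ← Finset.sum_range_sub' h n]
    refine Finset.sum_congr rfl fun k _ => ?_
    exact (step e (x k) (x (k + 1)) (x (k + 2)) he' (hx k)).symm
  have hre : -1 ≤ e.re := by
    have := Complex.abs_re_le_norm e
    rw [he] at this
    exact (abs_le.1 this).1
  have hre1 : e.re ≤ 1 := by
    have := Complex.abs_re_le_norm e
    rw [he] at this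
    exact (abs_le.1 this).2
  have hM3 : 3 ≤ M := by rw [hM]; nlinarith
  have h2 : 0 ≤ h 0 := by positivity
  have h3 : h n ≤ 72 * (‖x n‖ ^ 2 + ‖x (n + 1)‖ ^ 2) := by
    have h4 : ‖(4 + e) * x (n + 1) - (4 + e + conj e) * x n‖ ≤ 5 * ‖x (n + 1)‖ + 6 * ‖x n‖ := by
      have n4 : ‖(4 : ℂ)‖ = 4 := by simp
      have a1 : ‖4 + e‖ ≤ 5 := (norm_add_le _ _).trans (by rw [n4, he]; norm_num)
      have a2 : ‖4 + e + conj e‖ ≤ 6 := (norm_add_le _ _).trans (by
        rw [Complex.norm_conj, he]; linarith)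
      calc _ ≤ ‖(4 + e) * x (n + 1)‖ + ‖(4 + e + conj e) * x n‖ := norm_sub_le _ _
        _ ≤ _ := by rw [norm_mul, norm_mul]; gcongr
    have h5 : 0 ≤ ‖(4 + e) * x (n + 1) - (4 + e + conj e) * x n‖ := norm_nonneg _
    have h6 : h n ≤ (5 * ‖x (n + 1)‖ + 6 * ‖x n‖) ^ 2 := by
      simp only [hh]; gcongr
    nlinarith [sq_nonneg (5 * ‖x (n + 1)‖ - 6 * ‖x n‖), norm_nonneg (x n), norm_nonneg (x (n + 1)),
      sq_nonneg ‖x n‖, sq_nonneg ‖x (n + 1)‖]
  set S := ∑ k ∈ Finset.range n, (‖x k‖ ^ 2 - 2 * (conj (x (k + 1)) * x k).re) with hS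
  set D := ‖x n‖ ^ 2 + ‖x (n + 1)‖ ^ 2 with hD
  have hD0 : 0 ≤ D := by positivity
  by_contra hneg
  push Not at hneg
  nlinarith

theorem inj_cast : Function.Injective (Nat.cast : ℕ → ℤ) := Nat.cast_injective

theorem row_summable (f : H2) (k : ℕ) : Summable fun l => ‖f (k, l)‖ ^ 2 := by
  have h1 := lp.memℓp f
  rw [memℓp_gen_iff (by norm_num)] at h1
  have h2 : (2 : ℝ≥0∞).toReal = 2 := by norm_num
  simp only [h2, Real.rpow_two] at h1
  exact h1.comp_injective (i := fun l : ℕ => (k, l)) (fun a b h => by simpa using h)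

theorem er_mem (f : H2) (k : ℕ) :
    Memℓp (E := fun _ : ℤ => ℂ) (Function.extend (Nat.cast : ℕ → ℤ) (fun l => f (k, l)) 0) 2 := by
  rw [memℓp_gen_iff (by norm_num)]
  have h2 : (2 : ℝ≥0∞).toReal = 2 := by norm_num
  simp only [h2, Real.rpow_two]
  have h3 : (fun i => ‖Function.extend (Nat.cast : ℕ → ℤ) (fun l => f (k, l)) 0 i‖ ^ 2) =
      Function.extend (Nat.cast : ℕ → ℤ) (fun l => ‖f (k, l)‖ ^ 2) 0 := by
    funext i
    by_cases hi : ∃ a : ℕ, (a : ℤ) = i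
    · obtain ⟨a, rfl⟩ := hi
      rw [inj_cast.extend_apply, inj_cast.extend_apply]
    · rw [Function.extend_apply' _ _ _ hi, Function.extend_apply' _ _ _ hi]
      simp
  rw [h3]
  exact (summable_extend_zero inj_cast).2 (row_summable f k)

def er (f : H2) (k : ℕ) : lp (fun _ : ℤ => ℂ) 2 := ⟨_, er_mem f k⟩

theorem er_nat (f : H2) (k l : ℕ) : er f k (l : ℤ) = f (k, l) := by
  change Function.extend (Nat.cast : ℕ → ℤ) (fun l => f (k, l)) 0 (l : ℤ) = f (k, l)
  rw [inj_cast.extend_apply]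

theorem er_neg (f : H2) (k : ℕ) (n : ℤ) (hn : n < 0) : er f k n = 0 := by
  change Function.extend (Nat.cast : ℕ → ℤ) (fun l => f (k, l)) 0 n = 0
  rw [Function.extend_apply' _ _ _ (by rintro ⟨a, ha⟩; omega)]
  rfl

theorem inner_er (f g : H2) (k : ℕ) :
    HasSum (fun l : ℕ => ⟪f (k, l), g (k, l)⟫_ℂ) ⟪er f k, er g k⟫_ℂ := by
  have h1 := lp.hasSum_inner (𝕜 := ℂ) (er f k) (er g k)
  have h2 : HasSum ((fun i : ℤ => ⟪er f k i, er g k i⟫_ℂ) ∘ (Nat.cast : ℕ → ℤ))
      ⟪er f k, er g k⟫_ℂ := by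
    refine (inj_cast.hasSum_iff ?_).2 h1
    intro i hi
    have : i < 0 := by
      by_contra h
      exact hi ⟨i.toNat, by simp; omega⟩
    rw [er_neg f k i this, inner_zero_left]
  convert h2 using 1
  funext l
  simp only [Function.comp, er_nat]

theorem hasSum_rows (f g : H2) : HasSum (fun k => ⟪er f k, er g k⟫_ℂ) ⟪f, g⟫_ℂ := by
  have h1 := lp.hasSum_inner (𝕜 := ℂ) f g
  exact h1.prod_fiberwise (fun k => inner_er f g k)

/-- rows as functions on the circle -/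
def F (f : H2) (k : ℕ) : Lp ℂ 2 (AddCircle.haarAddCircle (T := (1 : ℝ))) :=
  fourierBasis.repr.symm (er f k)

theorem F_inner (f g : H2) (k j : ℕ) : ⟪F f k, F g j⟫_ℂ = ⟪er f k, er g j⟫_ℂ :=
  fourierBasis.repr.symm.inner_map_map _ _

theorem F_coeff (f : H2) (k : ℕ) (n : ℤ) : fourierCoeff (F f k) n = er f k n := by
  rw [← fourierBasis_repr, F, LinearIsometryEquiv.apply_symm_apply]

theorem er_Vsucc (f : H2) (k : ℕ) : er (V f) (k + 1) = er f k := by
  ext n
  rcases lt_or_ge n 0 with h | h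
  · rw [er_neg _ _ _ h, er_neg _ _ _ h]
  · obtain ⟨l, rfl⟩ := Int.eq_ofNat_of_zero_le h
    rw [er_nat, er_nat, V_succ]

theorem er_Vzero (f : H2) : er (V f) 0 = 0 := by
  ext n
  rcases lt_or_ge n 0 with h | h
  · rw [er_neg _ _ _ h]; rfl
  · obtain ⟨l, rfl⟩ := Int.eq_ofNat_of_zero_le h
    rw [er_nat, V_zero]; rfl

/-- the recurrence for the coefficients -/
theorem rec_coeff (f : H2) (hf : f ∈ S2) (k : ℕ) (n : ℤ) :
    4 * er f (k + 2) n + (er f (k + 2) (n - 1) - er f (k + 1) (n - 1) + er f k (n - 1)) = 0 := by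
  rcases lt_or_ge n 0 with h | h
  · rw [er_neg _ _ _ h, er_neg _ _ _ (by omega), er_neg _ _ _ (by omega), er_neg _ _ _ (by omega)]
    simp
  · obtain ⟨l, rfl⟩ := Int.eq_ofNat_of_zero_le h
    have h1 := (mem_S2 f).1 hf
    have h2 : V' (V' (P f)) (k, l) = 0 := by rw [h1]; rfl
    rw [V'_apply, V'_apply, P_apply] at h2
    have h3 : ((4 : ℂ) • f + B (W f)) (k + 1 + 1, l) = 4 * f (k + 2, l) +
        (W f (k, l) - W f (k + 1, l) + W f (k + 2, l)) := by
      rw [B_apply]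
      change 4 * f (k + 2, l) + (V (V (W f)) (k + 2, l) - V (W f) (k + 2, l) + W f (k + 2, l)) = _
      rw [V_succ, V_succ, V_succ]
    rw [h3] at h2
    rcases l with _ | l
    · simp only [W_zero] at h2
      rw [er_nat, er_neg _ _ _ (by simp), er_neg _ _ _ (by simp), er_neg _ _ _ (by simp)]
      linear_combination h2
    · simp only [W_succ] at h2
      have h4 : ((l + 1 : ℕ) : ℤ) - 1 = (l : ℤ) := by push_cast; ring
      rw [h4]
      simp only [er_nat]
      linear_combination h2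

theorem norm_fourier' (n : ℤ) (t : AddCircle (1 : ℝ)) : ‖(fourier n t : ℂ)‖ = 1 := by
  rw [fourier_apply]; exact Circle.norm_coe _

/-- multiplication by the first character -/
theorem mul_memLp (H : Lp ℂ 2 (AddCircle.haarAddCircle (T := (1 : ℝ)))) :
    MemLp (fun t : AddCircle (1 : ℝ) => fourier 1 t * H t) 2 AddCircle.haarAddCircle := by
  refine MemLp.of_le (Lp.memLp H) ?_ ?_
  · exact ((fourier 1).continuous.aestronglyMeasurable).mul (Lp.aestronglyMeasurable H)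
  · refine ae_of_all _ fun t => ?_
    rw [norm_mul, norm_fourier', one_mul]

theorem mul_coeff (H : Lp ℂ 2 (AddCircle.haarAddCircle (T := (1 : ℝ)))) (n : ℤ) :
    fourierCoeff ((mul_memLp H).toLp _ : AddCircle (1 : ℝ) → ℂ) n = fourierCoeff H (n - 1) := by
  unfold fourierCoeff
  refine integral_congr_ae ?_
  filter_upwards [(mul_memLp H).coeFn_toLp] with t ht
  rw [ht]
  simp only [smul_eq_mul]
  rw [← mul_assoc]
  rw [← fourier_add, show -n + 1 = -(n - 1) by ring]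

theorem rec_ae (f : H2) (hf : f ∈ S2) (k : ℕ) :
    ∀ᵐ t ∂(AddCircle.haarAddCircle (T := (1 : ℝ))),
      4 * F f (k + 2) t + fourier 1 t * (F f (k + 2) t - F f (k + 1) t + F f k t) = 0 := by
  set H := F f (k + 2) - F f (k + 1) + F f k with hH
  set G : Lp ℂ 2 (AddCircle.haarAddCircle (T := (1 : ℝ))) :=
    (4 : ℂ) • F f (k + 2) + (mul_memLp H).toLp _ with hG
  have h1 : fourierBasis.repr G = 0 := by
    ext n
    have e1 : fourierBasis.repr G n = 4 * fourierBasis.repr (F f (k + 2)) n +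
        fourierBasis.repr ((mul_memLp H).toLp _) n := by
      rw [hG, map_add, map_smul]; rfl
    rw [e1, fourierBasis_repr ((mul_memLp H).toLp _), mul_coeff, ← fourierBasis_repr]
    have e2 : fourierBasis.repr H (n - 1) = er f (k + 2) (n - 1) - er f (k + 1) (n - 1) +
        er f k (n - 1) := by
      rw [hH, map_add, map_sub]
      simp only [F, LinearIsometryEquiv.apply_symm_apply]
      rfl
    rw [e2]
    have e3 : fourierBasis.repr (F f (k + 2)) n = er f (k + 2) n := by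
      simp only [F, LinearIsometryEquiv.apply_symm_apply]
    rw [e3, rec_coeff f hf k n]
    rfl
  have h2 : G = 0 := by
    apply (fourierBasis (T := (1 : ℝ))).repr.injective
    rw [h1, map_zero]
  have h3 : (G : AddCircle (1 : ℝ) → ℂ) =ᵐ[AddCircle.haarAddCircle] 0 := by
    rw [h2]; exact Lp.coeFn_zero _ _ _
  filter_upwards [h3, Lp.coeFn_add ((4 : ℂ) • F f (k + 2)) ((mul_memLp H).toLp _),
    Lp.coeFn_smul (4 : ℂ) (F f (k + 2)), (mul_memLp H).coeFn_toLp,
    Lp.coeFn_add (F f (k + 2) - F f (k + 1)) (F f k), Lp.coeFn_sub (F f (k + 2)) (F f (k + 1))]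
    with t a1 a2 a3 a4 a5 a6
  rw [← hG] at a2
  rw [a2, Pi.add_apply, a3, a4, Pi.smul_apply, hH, a5, Pi.add_apply, a6, Pi.sub_apply] at a1
  simpa using a1

theorem ineq_n (f : H2) (hf : f ∈ S2) (n : ℕ) :
    0 ≤ (∑ k ∈ Finset.range n, ((⟪er f k, er f k⟫_ℂ).re - 2 * (⟪er f (k + 1), er f k⟫_ℂ).re)) +
      24 * ((⟪er f n, er f n⟫_ℂ).re + (⟪er f (n + 1), er f (n + 1)⟫_ℂ).re) := by
  have h1 : ∀ᵐ t ∂(AddCircle.haarAddCircle (T := (1 : ℝ))), ∀ k : ℕ,
      4 * F f (k + 2) t + fourier 1 t * (F f (k + 2) t - F f (k + 1) t + F f k t) = 0 :=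
    ae_all_iff.2 (rec_ae f hf)
  have hint : ∀ i j : ℕ, Integrable (fun t => (⟪F f i t, F f j t⟫_ℂ).re)
      (AddCircle.haarAddCircle (T := (1 : ℝ))) := fun i j =>
        (L2.integrable_inner (𝕜 := ℂ) (F f i) (F f j)).re
  have hval : ∀ i j : ℕ, ∫ t, (⟪F f i t, F f j t⟫_ℂ).re ∂(AddCircle.haarAddCircle (T := (1 : ℝ))) =
      (⟪er f i, er f j⟫_ℂ).re := by
    intro i j
    rw [← F_inner, L2.inner_def]
    exact integral_re (L2.integrable_inner (𝕜 := ℂ) (F f i) (F f j))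
  have h2 : 0 ≤ ∫ t, ((∑ k ∈ Finset.range n, ((⟪F f k t, F f k t⟫_ℂ).re -
      2 * (⟪F f (k + 1) t, F f k t⟫_ℂ).re)) +
      24 * ((⟪F f n t, F f n t⟫_ℂ).re + (⟪F f (n + 1) t, F f (n + 1) t⟫_ℂ).re))
      ∂(AddCircle.haarAddCircle (T := (1 : ℝ))) := by
    refine integral_nonneg_of_ae ?_
    filter_upwards [h1] with t ht
    have h3 := partial_sum (fourier 1 t) (norm_fourier' 1 t) (fun k => F f k t) ht n
    have e1 : ∀ x : ℂ, (⟪x, x⟫_ℂ).re = ‖x‖ ^ 2 := by
      intro x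
      rw [inner_self_eq_norm_sq_to_K]
      norm_cast
    have e2 : ∀ x y : ℂ, ⟪x, y⟫_ℂ = conj x * y := by
      intro x y
      rw [RCLike.inner_apply, mul_comm]
    simp only [e1]
    simp only [e2]
    exact h3
  have hs : ∀ k, Integrable (fun t => (⟪F f k t, F f k t⟫_ℂ).re -
      2 * (⟪F f (k + 1) t, F f k t⟫_ℂ).re) (AddCircle.haarAddCircle (T := (1 : ℝ))) :=
    fun k => (hint k k).sub ((hint (k + 1) k).const_mul 2)
  have hB : Integrable (fun t => (⟪F f n t, F f n t⟫_ℂ).re + (⟪F f (n + 1) t, F f (n + 1) t⟫_ℂ).re)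
      (AddCircle.haarAddCircle (T := (1 : ℝ))) := (hint n n).add (hint (n + 1) (n + 1))
  have hB' : Integrable (fun t => 24 * ((⟪F f n t, F f n t⟫_ℂ).re +
      (⟪F f (n + 1) t, F f (n + 1) t⟫_ℂ).re))
      (AddCircle.haarAddCircle (T := (1 : ℝ))) := hB.const_mul 24
  have hA : Integrable (fun t => ∑ k ∈ Finset.range n, ((⟪F f k t, F f k t⟫_ℂ).re -
      2 * (⟪F f (k + 1) t, F f k t⟫_ℂ).re)) (AddCircle.haarAddCircle (T := (1 : ℝ))) :=
    integrable_finsetSum _ fun k _ => hs k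
  rw [integral_add hA hB', integral_finsetSum _ (fun k _ => hs k), integral_const_mul,
    integral_add (hint n n) (hint (n + 1) (n + 1)), hval, hval] at h2
  have h4 : ∀ k, ∫ t, ((⟪F f k t, F f k t⟫_ℂ).re -
      2 * (⟪F f (k + 1) t, F f k t⟫_ℂ).re) ∂(AddCircle.haarAddCircle (T := (1 : ℝ))) =
      (⟪er f k, er f k⟫_ℂ).re - 2 * (⟪er f (k + 1), er f k⟫_ℂ).re := by
    intro k
    rw [integral_sub (hint k k) ((hint (k + 1) k).const_mul 2), integral_const_mul, hval, hval]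
  simp only [h4] at h2
  exact h2

theorem ineq (f : H2) (hf : f ∈ S2) : 2 * (⟪f, V f⟫_ℂ).re ≤ ‖f‖ ^ 2 := by
  have h1 : HasSum (fun k => (⟪er f k, er f k⟫_ℂ).re) (⟪f, f⟫_ℂ).re :=
    Complex.hasSum_re (hasSum_rows f f)
  have h2 : HasSum (fun k => (⟪er f (k + 1), er f k⟫_ℂ).re) (⟪f, V f⟫_ℂ).re := by
    have h3 := (hasSum_nat_add_iff' 1).2 (Complex.hasSum_re (hasSum_rows f (V f)))
    simp only [er_Vsucc, Finset.sum_range_one, er_Vzero, inner_zero_right, Complex.zero_re,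
      sub_zero] at h3
    exact h3
  have h4 := (h1.sub (h2.mul_left 2)).tendsto_sum_nat
  have h5 : Tendsto (fun n => (⟪er f n, er f n⟫_ℂ).re) atTop (𝓝 0) :=
    h1.summable.tendsto_atTop_zero
  have h6 : Tendsto (fun n => (⟪er f (n + 1), er f (n + 1)⟫_ℂ).re) atTop (𝓝 0) :=
    (tendsto_add_atTop_iff_nat 1).2 h5
  have h7 := h4.add ((h5.add h6).const_mul 24)
  have h8 := ge_of_tendsto' h7 (ineq_n f hf)
  have h9 : (⟪f, f⟫_ℂ).re = ‖f‖ ^ 2 := by
    rw [inner_self_eq_norm_sq_to_K]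
    norm_cast
  rw [h9] at h8
  linarith

end

end Pool.Agent.X202.Agl
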