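import Pool.Agent.X202.Agl.Cor

set_option autoImplicit false

open scoped InnerProductSpace ENNReal ComplexConjugate
open Filter Topology

namespace Pool.Agent.X202.Agl

noncomputable section

theorem Pos_rank1 (g : ℂ × ℂ → ℂ) : Pos fun z w => g z * conj (g w) :=
  (Pos_one.twist g).congr fun z _ w _ => by ring

/-- `ℋ(k)` inside `H²` as a submodule -/
def RKs (k : ℂ × ℂ → ℂ × ℂ → ℂ) (hk : Pos k) : Submodule ℂ H2 where
  carrier := RK k
  add_mem' := by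
    rintro f g ⟨C, hC, hp⟩ ⟨D, hD, hq⟩
    refine ⟨2 * (C + D), by positivity, ?_⟩
    refine (((hp.smul 2 (by norm_num)).add (hq.smul 2 (by norm_num))).add
      (Pos_rank1 fun z => val f z - val g z)).congr ?_
    intro z hz w hw
    rw [val_add _ _ _ hz, val_add _ _ _ hw, map_add, map_sub]
    push_cast
    ring
  zero_mem' := by
    refine ⟨1, by norm_num, hk.congr ?_⟩
    intro z _ w _
    have h0 : ∀ z, val (0 : H2) z = 0 := by
      intro z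
      have := val_smul 0 0 z
      rw [zero_smul, zero_mul] at this
      exact this
    rw [h0, h0]; simp
  smul_mem' := by
    rintro c f ⟨C, hC, hp⟩
    refine ⟨‖c‖ ^ 2 * C, by positivity, (hp.smul (‖c‖ ^ 2) (by positivity)).congr ?_⟩
    intro z _ w _
    rw [val_smul, val_smul, map_mul]
    have hc : c * conj c = ((‖c‖ ^ 2 : ℝ) : ℂ) := by
      rw [Complex.mul_conj, Complex.normSq_eq_norm_sq]
    push_cast at hc ⊢
    linear_combination (-(val f z * conj (val f w))) * hc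

theorem clos_map (N : Submodule ℂ H2) (T : H2 →L[ℂ] H2) (h : ∀ f ∈ N, T f ∈ N) :
    ∀ f ∈ N.topologicalClosure, T f ∈ N.topologicalClosure := by
  intro f hf
  exact map_mem_closure T.continuous hf h

theorem clos_proj (θ : ℂ × ℂ → ℂ) (N : Submodule ℂ H2) (T : H2 →L[ℂ] H2)
    (hN : ∀ f ∈ N, ∀ s ∈ KS θ, (∀ h ∈ KS θ, ⟪h, T f - s⟫_ℂ = 0) → s ∈ N) :
    ∀ f ∈ N.topologicalClosure, ∀ s ∈ KS θ, (∀ h ∈ KS θ, ⟪h, T f - s⟫_ℂ = 0) →
      s ∈ N.topologicalClosure := by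
  have : CompleteSpace (KS θ) := (KS_closed θ).completeSpace_coe
  intro f hf s hs ho
  have hPm : ∀ g, (KS θ).starProjection (T g) ∈ KS θ :=
    fun g => Submodule.starProjection_apply_mem _ _
  have hPo : ∀ g, ∀ h ∈ KS θ, ⟪h, T g - (KS θ).starProjection (T g)⟫_ℂ = 0 := fun g h hh =>
    Submodule.sub_starProjection_mem_orthogonal (T g) h hh
  have hs' : s = (KS θ).starProjection (T f) := by
    rw [← sub_eq_zero]
    set d := s - (KS θ).starProjection (T f) with hd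
    have hdK : d ∈ KS θ := (KS θ).sub_mem hs (hPm f)
    have h1 := ho d hdK
    have h2 := hPo f d hdK
    rw [inner_sub_right, sub_eq_zero] at h1 h2
    have h3 : ⟪d, d⟫_ℂ = 0 := by
      conv_lhs => rw [hd]
      rw [← hd]
      have : ⟪d, s - (KS θ).starProjection (T f)⟫_ℂ = 0 := by
        rw [inner_sub_right, ← h1, ← h2, sub_self]
      exact this
    exact inner_self_eq_zero.1 h3
  rw [hs']
  exact clos_map N ((KS θ).starProjection ∘L T) (fun g hg => hN g hg _ (hPm g) (hPo g)) f hf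

theorem clos_le {θ : ℂ × ℂ → ℂ} {N : Submodule ℂ H2} (h : N ≤ KS θ) : N.topologicalClosure ≤ KS θ :=
  Submodule.topologicalClosure_minimal _ h (KS_closed θ)

theorem final_fst {θ : ℂ × ℂ → ℂ} (hθ : Inn θ) (M1 M2 : Submodule ℂ H2)
    (le1 : M1 ≤ KS θ) (le2 : M2 ≤ KS θ)
    (inv1 : ∀ f ∈ M1, V f ∈ M1) (inv2 : ∀ f ∈ M2, W f ∈ M2)
    (red : ∀ f ∈ M2, ∀ s ∈ KS θ, (∀ h ∈ KS θ, ⟪h, V f - s⟫_ℂ = 0) → s ∈ M2)
    (red' : ∀ f ∈ M2, V' f ∈ M2)
    (dense : ∀ h ∈ KS θ, (∀ m ∈ M1, ⟪m, h⟫_ℂ = 0) → (∀ m ∈ M2, ⟪m, h⟫_ℂ = 0) → h = 0) :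
    ∃ φ ψ : ℂ → ℂ, Inn (fun z => φ z.1) ∧ Inn (fun z => ψ z.2) ∧
      ∀ z ∈ bidisk, θ z = φ z.1 * ψ z.2 :=
  core_fst' hθ M1.topologicalClosure M2.topologicalClosure (clos_le le1) (clos_le le2)
    (clos_map _ V inv1) (clos_map _ W inv2) (clos_proj θ _ V red) (clos_map _ V' red')
    fun h hh o1 o2 => dense h hh (fun m hm => o1 m (M1.le_topologicalClosure hm))
      fun m hm => o2 m (M2.le_topologicalClosure hm)

theorem final_snd {θ : ℂ × ℂ → ℂ} (hθ : Inn θ) (M1 M2 : Submodule ℂ H2)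
    (le1 : M1 ≤ KS θ) (le2 : M2 ≤ KS θ)
    (inv1 : ∀ f ∈ M1, V f ∈ M1) (inv2 : ∀ f ∈ M2, W f ∈ M2)
    (red : ∀ f ∈ M1, ∀ s ∈ KS θ, (∀ h ∈ KS θ, ⟪h, W f - s⟫_ℂ = 0) → s ∈ M1)
    (red' : ∀ f ∈ M1, W' f ∈ M1)
    (dense : ∀ h ∈ KS θ, (∀ m ∈ M1, ⟪m, h⟫_ℂ = 0) → (∀ m ∈ M2, ⟪m, h⟫_ℂ = 0) → h = 0) :
    ∃ φ ψ : ℂ → ℂ, Inn (fun z => φ z.1) ∧ Inn (fun z => ψ z.2) ∧
      ∀ z ∈ bidisk, θ z = φ z.1 * ψ z.2 :=
  core_snd' hθ M1.topologicalClosure M2.topologicalClosure (clos_le le1) (clos_le le2)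
    (clos_map _ V inv1) (clos_map _ W inv2) (clos_proj θ _ W red) (clos_map _ W' red')
    fun h hh o1 o2 => dense h hh (fun m hm => o1 m (M1.le_topologicalClosure hm))
      fun m hm => o2 m (M2.le_topologicalClosure hm)

end

end Pool.Agent.X202.Agl
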