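import Pool.Agent.X202.Agl.Fac

set_option autoImplicit false

open scoped InnerProductSpace ENNReal ComplexConjugate
open Filter Topology

namespace Pool.Agent.X202.Agl

noncomputable section

theorem Inn.swap {θ : ℂ × ℂ → ℂ} (hθ : Inn θ) : Inn (fun z => θ z.swap) := by
  intro f
  obtain ⟨g, hg, hn⟩ := hθ (X f)
  refine ⟨X g, ?_, ?_⟩
  · have := times_X hg
    rw [XX] at this
    exact this
  · rw [X.norm_map, hn, X.norm_map]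

theorem core_fst' {θ : ℂ × ℂ → ℂ} (hθ : Inn θ)
    (M1 M2 : Submodule ℂ H2) (le1 : M1 ≤ KS θ) (le2 : M2 ≤ KS θ)
    (inv1 : ∀ f ∈ M1, V f ∈ M1) (inv2 : ∀ f ∈ M2, W f ∈ M2)
    (red : ∀ f ∈ M2, ∀ s ∈ KS θ, (∀ h ∈ KS θ, ⟪h, V f - s⟫_ℂ = 0) → s ∈ M2)
    (red' : ∀ f ∈ M2, V' f ∈ M2)
    (dense : ∀ h ∈ KS θ, (∀ m ∈ M1, ⟪m, h⟫_ℂ = 0) → (∀ m ∈ M2, ⟪m, h⟫_ℂ = 0) → h = 0) :
    ∃ φ ψ : ℂ → ℂ, Inn (fun z => φ z.1) ∧ Inn (fun z => ψ z.2) ∧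
      ∀ z ∈ bidisk, θ z = φ z.1 * ψ z.2 := by
  obtain ⟨M, hM⟩ := exists_mul hθ
  exact factor' M hM (mkData M hM M1 M2 le1 le2 inv1 inv2 red red' dense)

theorem core_snd' {θ : ℂ × ℂ → ℂ} (hθ : Inn θ)
    (M1 M2 : Submodule ℂ H2) (le1 : M1 ≤ KS θ) (le2 : M2 ≤ KS θ)
    (inv1 : ∀ f ∈ M1, V f ∈ M1) (inv2 : ∀ f ∈ M2, W f ∈ M2)
    (red : ∀ f ∈ M1, ∀ s ∈ KS θ, (∀ h ∈ KS θ, ⟪h, W f - s⟫_ℂ = 0) → s ∈ M1)
    (red' : ∀ f ∈ M1, W' f ∈ M1)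
    (dense : ∀ h ∈ KS θ, (∀ m ∈ M1, ⟪m, h⟫_ℂ = 0) → (∀ m ∈ M2, ⟪m, h⟫_ℂ = 0) → h = 0) :
    ∃ φ ψ : ℂ → ℂ, Inn (fun z => φ z.1) ∧ Inn (fun z => ψ z.2) ∧
      ∀ z ∈ bidisk, θ z = φ z.1 * ψ z.2 := by
  obtain ⟨φ, ψ, i1, i2, h⟩ := core_fst' hθ.swap (M2.comap X.toLinearMap) (M1.comap X.toLinearMap)
    (fun f hf => by
      have := mem_KS_X' (le2 (show X f ∈ M2 from hf))
      rwa [XX] at this)
    (fun f hf => by
      have := mem_KS_X' (le1 (show X f ∈ M1 from hf))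
      rwa [XX] at this)
    (fun f hf => by
      change X (V f) ∈ M2
      rw [XV]; exact inv2 _ hf)
    (fun f hf => by
      change X (W f) ∈ M1
      rw [XW]; exact inv1 _ hf)
    (fun f hf s hs ho => by
      change X s ∈ M1
      refine red (X f) hf _ (mem_KS_X hs) fun h hh => ?_
      rw [← XV, ← map_sub, ← X_inner]
      exact ho _ (mem_KS_X' hh))
    (fun f hf => by
      change X (V' f) ∈ M1
      rw [XV']; exact red' _ hf)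
    (fun h hh o1 o2 => by
      have h1 : X h = 0 := by
        refine dense _ (mem_KS_X hh) (fun m hm => ?_) (fun m hm => ?_)
        · rw [← X_inner]
          exact o2 _ (by change X (X m) ∈ M1; rw [XX]; exact hm)
        · rw [← X_inner]
          exact o1 _ (by change X (X m) ∈ M2; rw [XX]; exact hm)
      rw [← XX h, h1, map_zero])
  refine ⟨ψ, φ, i2.swap, i1.swap, fun z hz => ?_⟩
  have := h z.swap (swap_mem hz)
  rw [Prod.swap_swap] at this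
  rw [this]
  simp only [Prod.fst_swap, Prod.snd_swap]
  ring

end

end Pool.Agent.X202.Agl
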