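import Pool.Agent.X202.Agl.C

set_option autoImplicit false

open scoped InnerProductSpace ENNReal ComplexConjugate
open Filter Topology MeasureTheory

namespace Pool.Agent.X202.Agl

noncomputable section

theorem oneD_zero (a : ℕ → ℂ) (C : ℝ) (hC : ∀ n, ‖a n‖ ≤ C)
    (h : ∀ z : ℂ, ‖z‖ < 1 → z ≠ 0 → ∑' n, a n * z ^ n = 0) :
    a 0 = 0 ∧ ∀ z : ℂ, ‖z‖ < 1 → z ≠ 0 → ∑' n, a (n + 1) * z ^ n = 0 := by
  have hC0 : 0 ≤ C := (norm_nonneg _).trans (hC 0)
  have hs : ∀ (b : ℕ → ℂ), (∀ n, ‖b n‖ ≤ C) → ∀ z : ℂ, ‖z‖ < 1 →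
      Summable (fun n => b n * z ^ n) := by
    intro b hb z hz
    refine Summable.of_norm_bounded (g := fun n => C * ‖z‖ ^ n)
      ((summable_geometric_of_lt_one (norm_nonneg _) hz).mul_left C) fun n => ?_
    rw [norm_mul, norm_pow]
    exact mul_le_mul_of_nonneg_right (hb n) (by positivity)
  have h1 : ∀ z : ℂ, ‖z‖ < 1 → z ≠ 0 → a 0 + z * ∑' n, a (n + 1) * z ^ n = 0 := by
    intro z hz hz0
    rw [← h z hz hz0, (hs a hC z hz).tsum_eq_zero_add, ← tsum_mul_left]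
    simp only [pow_zero, mul_one]
    congr 1
    refine tsum_congr fun n => ?_
    ring
  have h2 : ∀ z : ℂ, ‖z‖ < 1 → ‖∑' n, a (n + 1) * z ^ n‖ ≤ C * (1 - ‖z‖)⁻¹ := by
    intro z hz
    rw [← tsum_geometric_of_lt_one (norm_nonneg _) hz, ← tsum_mul_left]
    refine tsum_of_norm_bounded (((summable_geometric_of_lt_one (norm_nonneg _) hz).mul_left C).hasSum)
      fun n => ?_
    rw [norm_mul, norm_pow]
    exact mul_le_mul_of_nonneg_right (hC _) (by positivity)
  have h3 : a 0 = 0 := by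
    by_contra hne
    have hpos : 0 < ‖a 0‖ := norm_pos_iff.2 hne
    set ε : ℝ := min (1 / 2) (‖a 0‖ / (4 * (C + 1))) with hε
    have hε0 : 0 < ε := lt_min (by norm_num) (by positivity)
    have hε1 : ε ≤ 1 / 2 := min_le_left _ _
    have hε2 : ε ≤ ‖a 0‖ / (4 * (C + 1)) := min_le_right _ _
    have hn : ‖(ε : ℂ)‖ = ε := by rw [Complex.norm_real, Real.norm_of_nonneg hε0.le]
    have h4 := h1 ε (by rw [hn]; linarith) (by exact_mod_cast hε0.ne')
    have h5 := h2 ε (by rw [hn]; linarith)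
    rw [hn] at h5
    have h6 : (1 - ε)⁻¹ ≤ 2 := by
      rw [inv_le_comm₀ (by linarith) (by norm_num)]; linarith
    have h7 : ‖a 0‖ = ε * ‖∑' n, a (n + 1) * (ε : ℂ) ^ n‖ := by
      rw [eq_neg_of_add_eq_zero_left h4, norm_neg, norm_mul, hn]
    have h8 : ‖∑' n, a (n + 1) * (ε : ℂ) ^ n‖ ≤ 2 * C := by
      refine h5.trans ?_
      nlinarith
    have h9 : ‖a 0‖ ≤ ε * (2 * C) := by
      rw [h7]; exact mul_le_mul_of_nonneg_left h8 hε0.le
    have h10 : ε * (2 * C) ≤ ‖a 0‖ / (4 * (C + 1)) * (2 * C) :=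
      mul_le_mul_of_nonneg_right hε2 (by positivity)
    have h11 : ‖a 0‖ / (4 * (C + 1)) * (2 * C) ≤ ‖a 0‖ / 2 := by
      rw [div_mul_eq_mul_div, div_le_div_iff₀ (by positivity) (by norm_num)]
      nlinarith
    linarith
  refine ⟨h3, fun z hz hz0 => ?_⟩
  have h4 := h1 z hz hz0
  rw [h3, zero_add] at h4
  exact (mul_eq_zero.1 h4).resolve_left hz0

theorem oneD (n : ℕ) : ∀ (a : ℕ → ℂ) (C : ℝ), (∀ n, ‖a n‖ ≤ C) →
    (∀ z : ℂ, ‖z‖ < 1 → z ≠ 0 → ∑' n, a n * z ^ n = 0) → a n = 0 := by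
  induction n with
  | zero => intro a C hC h; exact (oneD_zero a C hC h).1
  | succ n ih =>
    intro a C hC h
    exact ih (fun n => a (n + 1)) C (fun n => hC _) (oneD_zero a C hC h).2

/-- the open bidisk -/
def bidisk : Set (ℂ × ℂ) := {z | ‖z.1‖ < 1 ∧ ‖z.2‖ < 1}

/-- value of the power series with coefficients `f` -/
def val (f : H2) (z : ℂ × ℂ) : ℂ := ∑' n : ℕ × ℕ, f n * z.1 ^ n.1 * z.2 ^ n.2

theorem geo (z : ℂ × ℂ) (hz : z ∈ bidisk) :
    Summable (fun n : ℕ × ℕ => ‖z.1‖ ^ n.1 * ‖z.2‖ ^ n.2) :=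
  (summable_geometric_of_lt_one (norm_nonneg _) hz.1).mul_of_nonneg
    (summable_geometric_of_lt_one (norm_nonneg _) hz.2) (fun _ => by positivity)
    (fun _ => by positivity)

theorem val_summable (f : H2) (z : ℂ × ℂ) (hz : z ∈ bidisk) :
    Summable (fun n : ℕ × ℕ => f n * z.1 ^ n.1 * z.2 ^ n.2) := by
  refine Summable.of_norm_bounded ((geo z hz).mul_left ‖f‖) fun n => ?_
  rw [norm_mul, norm_mul, norm_pow, norm_pow, mul_assoc]
  exact mul_le_mul_of_nonneg_right (lp.norm_apply_le_norm (by norm_num) f n) (by positivity)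

theorem val_add (f g : H2) (z : ℂ × ℂ) (hz : z ∈ bidisk) : val (f + g) z = val f z + val g z := by
  unfold val
  rw [← (val_summable f z hz).tsum_add (val_summable g z hz)]
  refine tsum_congr fun n => ?_
  change (f n + g n) * _ * _ = _
  ring

theorem val_smul (c : ℂ) (f : H2) (z : ℂ × ℂ) : val (c • f) z = c * val f z := by
  unfold val
  rw [← tsum_mul_left]
  refine tsum_congr fun n => ?_
  change (c * f n) * _ * _ = _
  ring

theorem val_neg (f : H2) (z : ℂ × ℂ) : val (-f) z = -val f z := by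
  have := val_smul (-1) f z
  rw [neg_one_smul] at this
  rw [this]; ring

theorem val_sub (f g : H2) (z : ℂ × ℂ) (hz : z ∈ bidisk) : val (f - g) z = val f z - val g z := by
  rw [sub_eq_add_neg, val_add _ _ _ hz, val_neg]; ring

theorem val_V (f : H2) (z : ℂ × ℂ) : val (V f) z = z.1 * val f z := by
  unfold val
  rw [← s1_inj.tsum_eq, ← tsum_mul_left]
  · refine tsum_congr fun n => ?_
    rcases n with ⟨k, l⟩
    change V f (k + 1, l) * z.1 ^ (k + 1) * z.2 ^ l = _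
    rw [V_succ]; ring
  · intro n hn
    rcases n with ⟨_ | k, l⟩
    · exfalso; apply hn
      change V f (0, l) * _ * _ = 0
      rw [V_zero]; ring
    · exact ⟨(k, l), rfl⟩

theorem val_W (f : H2) (z : ℂ × ℂ) : val (W f) z = z.2 * val f z := by
  unfold val
  rw [← s2_inj.tsum_eq, ← tsum_mul_left]
  · refine tsum_congr fun n => ?_
    rcases n with ⟨k, l⟩
    change W f (k, l + 1) * z.1 ^ k * z.2 ^ (l + 1) = _
    rw [W_succ]; ring
  · intro n hn
    rcases n with ⟨k, _ | l⟩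
    · exfalso; apply hn
      change W f (k, 0) * _ * _ = 0
      rw [W_zero]; ring
    · exact ⟨(k, l), rfl⟩

theorem val_zero_imp (f : H2) (h : ∀ z ∈ bidisk, val f z = 0) : f = 0 := by
  have hb : ∀ n, ‖f n‖ ≤ ‖f‖ := fun n => lp.norm_apply_le_norm (by norm_num) f n
  have h1 : ∀ w : ℂ, ‖w‖ < 1 → ∀ k, ∑' l, f (k, l) * w ^ l = 0 := by
    intro w hw k
    have hA : ∀ k, ‖∑' l, f (k, l) * w ^ l‖ ≤ ‖f‖ * (1 - ‖w‖)⁻¹ := by
      intro k
      rw [← tsum_geometric_of_lt_one (norm_nonneg _) hw, ← tsum_mul_left]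
      refine tsum_of_norm_bounded
        (((summable_geometric_of_lt_one (norm_nonneg _) hw).mul_left ‖f‖).hasSum) fun n => ?_
      rw [norm_mul, norm_pow]
      exact mul_le_mul_of_nonneg_right (hb _) (by positivity)
    refine oneD k (fun k => ∑' l, f (k, l) * w ^ l) _ hA ?_
    intro z hz _
    have h2 := h (z, w) ⟨hz, hw⟩
    rw [← h2]
    unfold val
    rw [(val_summable f (z, w) ⟨hz, hw⟩).tsum_prod]
    refine tsum_congr fun k => ?_
    rw [← tsum_mul_right]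
    refine tsum_congr fun l => ?_
    ring
  ext ⟨k, l⟩
  exact oneD l (fun l => f (k, l)) ‖f‖ (fun l => hb _) (fun z hz _ => h1 z hz k)

theorem val_inj (f g : H2) (h : ∀ z ∈ bidisk, val f z = val g z) : f = g := by
  rw [← sub_eq_zero]
  apply val_zero_imp
  intro z hz
  rw [val_sub f g z hz, h z hz, sub_self]

end

end Pool.Agent.X202.Agl
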