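import Pool.Agent.X202.Agl.Sz

set_option autoImplicit false

open scoped InnerProductSpace ENNReal ComplexConjugate
open Filter Topology

namespace Pool.Agent.X202.Agl

noncomputable section

/-- the space with reproducing kernel `k`, inside `H²` -/
def RK (k : ℂ × ℂ → ℂ × ℂ → ℂ) : Set H2 :=
  {f | ∃ C : ℝ, 0 ≤ C ∧ Pos fun z w => (C : ℂ) * k z w - val f z * conj (val f w)}

theorem Pos_one : Pos fun _ _ => (1 : ℂ) := by
  refine ⟨fun z _ w _ => by simp, fun ι _ z c _ => ?_⟩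
  have : (∑ i, ∑ j, c i * conj (c j) * (1 : ℂ)) = (∑ i, c i) * conj (∑ i, c i) := by
    rw [map_sum, Finset.sum_mul_sum]
    simp only [mul_one]
  rw [this, Complex.mul_conj, Complex.ofReal_re]
  exact Complex.normSq_nonneg _

theorem Pos_szk : Pos szk := by
  refine ((Pos_one.div Prod.fst fun z hz => hz.1).div Prod.snd fun z hz => hz.2).congr ?_
  intro z _ w _
  rw [szk, div_div]

theorem RK_V (K1 : ℂ × ℂ → ℂ × ℂ → ℂ) (h : Pos K1) (f : H2)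
    (hf : f ∈ RK fun z w => K1 z w / (1 - z.1 * conj w.1)) :
    V f ∈ RK fun z w => K1 z w / (1 - z.1 * conj w.1) := by
  obtain ⟨C, hC, hp⟩ := hf
  refine ⟨C, hC, ((h.smul C hC).add (hp.twist Prod.fst)).congr ?_⟩
  intro z hz w hw
  have hne := one_sub_ne z.1 w.1 hz.1 hw.1
  rw [val_V, val_V, map_mul]
  field_simp
  ring

theorem RK_W (K2 : ℂ × ℂ → ℂ × ℂ → ℂ) (h : Pos K2) (f : H2)
    (hf : f ∈ RK fun z w => K2 z w / (1 - z.2 * conj w.2)) :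
    W f ∈ RK fun z w => K2 z w / (1 - z.2 * conj w.2) := by
  obtain ⟨C, hC, hp⟩ := hf
  refine ⟨C, hC, ((h.smul C hC).add (hp.twist Prod.snd)).congr ?_⟩
  intro z hz w hw
  have hne := one_sub_ne z.2 w.2 hz.2 hw.2
  rw [val_W, val_W, map_mul]
  field_simp
  ring

/-- kernel functions belong to the space -/
theorem kernel_mem (θ : ℂ × ℂ → ℂ) (k k' : ℂ × ℂ → ℂ × ℂ → ℂ) (hk : Pos k) (hk' : Pos k')
    (hid : ∀ z ∈ bidisk, ∀ w ∈ bidisk, k z w + k' z w = (1 - θ z * conj (θ w)) * szk z w)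
    (w : ℂ × ℂ) (hw : w ∈ bidisk) : ∃ κ ∈ RK k, ∀ z ∈ bidisk, val κ z = k z w := by
  obtain ⟨ha, hcs⟩ := hk.cs w hw
  obtain ⟨κ, hκ⟩ := riesz (fun z => k z w) (k w w).re ha (by
    refine ((((Pos_szk.twist θ).add hk').smul _ ha).add hcs).congr ?_
    intro x hx y hy
    have h1 := hid x hx y hy
    linear_combination (-((k w w).re : ℂ)) * h1)
  refine ⟨κ, ⟨(k w w).re, ha, hcs.congr ?_⟩, hκ⟩
  intro x hx y hy
  rw [hκ x hx, hκ y hy]

theorem dense_RK {θ : ℂ × ℂ → ℂ} (M : H2 →ₗᵢ[ℂ] H2) (hM : ∀ f, Times θ f (M f))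
    (K1 K2 : ℂ × ℂ → ℂ × ℂ → ℂ) (h1 : Pos K1) (h2 : Pos K2)
    (hid : ∀ z ∈ bidisk, ∀ w ∈ bidisk, 1 - θ z * conj (θ w) =
      (1 - z.1 * conj w.1) * K2 z w + (1 - z.2 * conj w.2) * K1 z w)
    (h : H2) (hh : h ∈ KS θ)
    (o1 : ∀ m ∈ RK fun z w => K1 z w / (1 - z.1 * conj w.1), ⟪m, h⟫_ℂ = 0)
    (o2 : ∀ m ∈ RK fun z w => K2 z w / (1 - z.2 * conj w.2), ⟪m, h⟫_ℂ = 0) : h = 0 := by
  have p1 := h1.div Prod.fst fun z hz => hz.1
  have p2 := h2.div Prod.snd fun z hz => hz.2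
  have id1 : ∀ z ∈ bidisk, ∀ w ∈ bidisk, K1 z w / (1 - z.1 * conj w.1) +
      K2 z w / (1 - z.2 * conj w.2) = (1 - θ z * conj (θ w)) * szk z w := by
    intro z hz w hw
    have n1 := one_sub_ne z.1 w.1 hz.1 hw.1
    have n2 := one_sub_ne z.2 w.2 hz.2 hw.2
    rw [hid z hz w hw, szk]
    field_simp
    ring
  apply val_zero_imp
  intro w hw
  obtain ⟨κ1, m1, v1⟩ := kernel_mem θ _ _ p1 p2 id1 w hw
  obtain ⟨κ2, m2, v2⟩ := kernel_mem θ _ _ p2 p1 (fun z hz w hw => by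
    rw [add_comm]; exact id1 z hz w hw) w hw
  have hsum : κ1 + κ2 = sz w - conj (θ w) • M (sz w) := by
    apply val_inj
    intro z hz
    rw [val_add _ _ _ hz, v1 z hz, v2 z hz, val_sub _ _ _ hz, val_smul, hM _ z hz,
      val_sz z w hz hw]
    have := id1 z hz w hw
    linear_combination this
  have e1 : ⟪κ1 + κ2, h⟫_ℂ = 0 := by
    rw [inner_add_left, o1 _ m1, o2 _ m2, add_zero]
  rw [hsum, inner_sub_left, inner_smul_left, hh (sz w) (M (sz w)) (hM _), mul_zero, sub_zero,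
    sz_inner w hw] at e1
  exact e1

end

end Pool.Agent.X202.Agl
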