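import Pool.Agent.X202.Agl.D

set_option autoImplicit false

open scoped InnerProductSpace ENNReal ComplexConjugate
open Filter Topology MeasureTheory

namespace Pool.Agent.X202.Agl

noncomputable section

/-- `g = φ f` on the bidisk -/
def Times (φ : ℂ × ℂ → ℂ) (f g : H2) : Prop := ∀ z ∈ bidisk, val g z = φ z * val f z

theorem times_fst (f g : H2) : Times Prod.fst f g ↔ g = V f := by
  constructor
  · intro h
    apply val_inj
    intro z hz
    rw [h z hz, val_V]
  · rintro rfl z _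
    exact val_V f z

theorem times_snd (f g : H2) : Times Prod.snd f g ↔ g = W f := by
  constructor
  · intro h
    apply val_inj
    intro z hz
    rw [h z hz, val_W]
  · rintro rfl z _
    exact val_W f z

def bb (z : ℂ × ℂ) : ℂ := z.1 ^ 2 - z.1 + 1
def pp (z : ℂ × ℂ) : ℂ := 4 + bb z * z.2
def qq (z : ℂ × ℂ) : ℂ := 4 * z.1 ^ 2 * z.2 + bb z
def theta (z : ℂ × ℂ) : ℂ := qq z / pp z

theorem val_B (f : H2) (z : ℂ × ℂ) (hz : z ∈ bidisk) : val (B f) z = bb z * val f z := by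
  rw [B_apply, val_add _ _ _ hz, val_sub _ _ _ hz, val_V, val_V, bb]; ring

theorem val_P (f : H2) (z : ℂ × ℂ) (hz : z ∈ bidisk) : val (P f) z = pp z * val f z := by
  rw [P_apply, val_add _ _ _ hz, val_smul, val_B _ _ hz, val_W, pp]; ring

theorem val_Q (f : H2) (z : ℂ × ℂ) (hz : z ∈ bidisk) : val (Q f) z = qq z * val f z := by
  rw [Q_apply, val_add _ _ _ hz, val_smul, val_B _ _ hz, val_V, val_V, val_W, qq]; ring

theorem pp_ne (z : ℂ × ℂ) (h1 : ‖z.1‖ ≤ 1) (h2 : ‖z.2‖ ≤ 1) : pp z ≠ 0 := by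
  intro h
  have h3 : ‖bb z‖ ≤ 3 := by
    unfold bb
    calc ‖z.1 ^ 2 - z.1 + 1‖ ≤ ‖z.1 ^ 2 - z.1‖ + ‖(1 : ℂ)‖ := norm_add_le _ _
      _ ≤ ‖z.1 ^ 2‖ + ‖z.1‖ + ‖(1 : ℂ)‖ := by gcongr; exact norm_sub_le _ _
      _ ≤ 1 + 1 + 1 := by
        rw [norm_pow, norm_one]
        gcongr
        exact pow_le_one₀ (norm_nonneg _) h1
      _ = 3 := by norm_num
  have h4 : ‖bb z * z.2‖ ≤ 3 * 1 := by
    rw [norm_mul]; gcongr
  have h5 : (4 : ℂ) = -(bb z * z.2) := by
    unfold pp at h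
    linear_combination h
  have h6 : ‖(4 : ℂ)‖ = 4 := by simp
  rw [h5, norm_neg] at h6
  linarith

theorem times_theta (f g : H2) : Times theta f g ↔ P g = Q f := by
  have key : ∀ z ∈ bidisk, (val g z = theta z * val f z ↔ val (P g) z = val (Q f) z) := by
    intro z hz
    have hp := pp_ne z hz.1.le hz.2.le
    rw [val_P _ _ hz, val_Q _ _ hz, theta, div_mul_eq_mul_div, eq_div_iff hp, mul_comm (val g z)]
  constructor
  · intro h
    exact val_inj _ _ fun z hz => (key z hz).1 (h z hz)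
  · intro h z hz
    exact (key z hz).2 (by rw [h])

/-- `K_θ`: orthogonal complement of `θ H²` -/
def KK (θ : ℂ × ℂ → ℂ) : Set H2 := {h | ∀ f g, Times θ f g → ⟪g, h⟫_ℂ = 0}

theorem QP (f : H2) : Q (P f) = P (Q f) := by
  simp only [P_apply, Q_apply, B_apply, map_add, map_sub, map_smul, WV]
  module

theorem Q_inner (x h : H2) : ⟪Q x, h⟫_ℂ = ⟪x, W' (V' (V' (P h)))⟫_ℂ := by
  have h1 : Q x = P' (V (V (W x))) := by
    rw [Q_apply, P'_apply, B'_apply, B_apply]
    simp only [W'V, V'V, W'W]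
    abel
  have h2 : ∀ a b : H2, ⟪P' a, b⟫_ℂ = ⟪a, P b⟫_ℂ := by
    intro a b
    rw [← inner_conj_symm, ← P_inner, inner_conj_symm]
  rw [h1, h2, V_inner, V_inner, W_inner]

theorem mem_KK (h : H2) : h ∈ KK theta ↔ h ∈ K := by
  obtain ⟨R, hRP, hPR⟩ := exists_R
  rw [mem_K]
  constructor
  · intro hh
    refine ext_inner_left ℂ fun x => ?_
    rw [← Q_inner, inner_zero_right]
    exact hh (P x) (Q x) ((times_theta _ _).2 (QP x).symm)
  · intro hh f g hfg
    have h1 := (times_theta f g).1 hfg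
    have h2 : g = Q (R f) := by
      rw [← hRP g, h1, ← hRP (Q (R f)), ← QP, hPR]
    rw [h2, Q_inner, hh, inner_zero_right]

/-- the constant function one -/
def one : H2 := lp.single 2 ((0, 0) : ℕ × ℕ) (1 : ℂ)

theorem one_zero : one (0, 0) = 1 := by
  classical
  simp [one, lp.coeFn_single]

theorem V'one : V' one = 0 := by
  classical
  ext ⟨k, l⟩
  rw [V'_apply]
  simp [one, lp.coeFn_single]

theorem exists_extremal : ∃ g : H2, g ≠ 0 ∧ g ∈ S2 ∧ ‖g‖ ^ 2 = 2 * (⟪g, V g⟫_ℂ).re := by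
  obtain ⟨R, hRP, hPR⟩ := exists_R
  set u : H2 := (4 : ℂ) • V (W one) + (4 : ℂ) • W one + V one + W (W one) with hu
  have hPg : P (R u) = u := hPR u
  have hmem : R u ∈ S2 := by
    rw [mem_S2, hPR, hu]
    simp only [map_add, map_smul, V'V, ← WV', V'one, map_zero, smul_zero, add_zero]
  refine ⟨R u, ?_, hmem, ?_⟩
  · intro h0
    rw [h0, map_zero] at hPg
    have h1 : u (0, 1) = 4 := by
      rw [hu]
      change 4 * V (W one) (0, 1) + 4 * W one (0, 1) + V one (0, 1) + W (W one) (0, 1) = 4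
      rw [V_zero, V_zero, W_succ, W_succ, W_zero, one_zero]
      norm_num
    rw [← hPg] at h1
    have h2 : (0 : H2) (0, 1) = 0 := rfl
    rw [h2] at h1
    norm_num at h1
  · have hB : B (R u) = V (R (Q one)) + W one := by
      have hPB : P (B (R u)) = B u := by
        have : P (B (R u)) = B (P (R u)) := by
          simp only [P_apply, B_apply, map_add, map_sub, map_smul, WV]
          module
        rw [this, hPg]
      have h3 : P (V (R (Q one)) + W one) = B u := by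
        rw [map_add, ← VP, hPR, ← WP, hu]
        simp only [P_apply, Q_apply, B_apply, map_add, map_sub, map_smul, WV]
        module
      rw [← hRP (B (R u)), hPB, ← h3, hRP]
    have h4 : ⟪B (R u), V (R u)⟫_ℂ = 0 := by
      rw [hB, inner_add_left]
      have h5 : ⟪V (R (Q one)), V (R u)⟫_ℂ = 0 := by
        rw [V_inner, V'V]
        have h6 : R (Q one) = Q (R one) := by
          rw [← hRP (Q (R one)), ← QP, hPR]
        rw [h6, Q_inner, (mem_S2 _).1 hmem, map_zero, inner_zero_right]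
      have h7 : ⟪W one, V (R u)⟫_ℂ = 0 := by
        rw [← V'_inner, ← WV', V'one, map_zero, inner_zero_left]
      rw [h5, h7, add_zero]
    rw [B_apply, inner_add_left, inner_sub_left] at h4
    have h8 : ⟪V (V (R u)), V (R u)⟫_ℂ = ⟪V (R u), R u⟫_ℂ := by
      rw [V_inner, V'V]
    have h9 : ⟪V (R u), V (R u)⟫_ℂ = ⟪R u, R u⟫_ℂ := by
      rw [V_inner, V'V]
    rw [h8, h9] at h4
    have h10 := congrArg Complex.re h4
    simp only [Complex.add_re, Complex.sub_re, Complex.zero_re] at h10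
    have h11 : (⟪V (R u), R u⟫_ℂ).re = (⟪R u, V (R u)⟫_ℂ).re := by
      rw [← inner_conj_symm, Complex.conj_re]
    have h12 : (⟪R u, R u⟫_ℂ).re = ‖R u‖ ^ 2 := by
      rw [inner_self_eq_norm_sq_to_K]
      norm_cast
    rw [h11, h12] at h10
    linarith

/-- numerical range of the compression of multiplication by `φ` to `S` -/
def NR (φ : ℂ × ℂ → ℂ) (S : Submodule ℂ H2) : Set ℂ :=
  {c | ∃ f ∈ S, ‖f‖ = 1 ∧ ∃ g s : H2, Times φ f g ∧ s ∈ S ∧ (∀ h ∈ S, ⟪h, g - s⟫_ℂ = 0) ∧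
    c = ⟪f, s⟫_ℂ}

theorem mem_NR (c : ℂ) : c ∈ NR Prod.fst S2 ↔ ∃ f ∈ S2, ‖f‖ = 1 ∧ c = ⟪f, V f⟫_ℂ := by
  constructor
  · rintro ⟨f, hf, hn, g, s, hg, hs, ho, rfl⟩
    rw [times_fst] at hg
    subst hg
    refine ⟨f, hf, hn, ?_⟩
    have := ho f hf
    rw [inner_sub_right, sub_eq_zero] at this
    exact this.symm
  · rintro ⟨f, hf, hn, rfl⟩
    haveI : CompleteSpace S2 := S2_closed.completeSpace_coe
    refine ⟨f, hf, hn, V f, S2.starProjection (V f), (times_fst _ _).2 rfl,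
      Submodule.starProjection_apply_mem _ _, ?_, ?_⟩
    · intro h hh
      exact Submodule.sub_starProjection_mem_orthogonal (V f) h hh
    · have := Submodule.sub_starProjection_mem_orthogonal (K := S2) (V f) f hf
      rw [inner_sub_right, sub_eq_zero] at this
      exact this

theorem not_open : ¬ IsOpen (NR Prod.fst S2) := by
  intro hopen
  obtain ⟨g, hg0, hg, hgn⟩ := exists_extremal
  have hn : ‖g‖ ≠ 0 := norm_ne_zero_iff.2 hg0
  set f : H2 := ((‖g‖⁻¹ : ℝ) : ℂ) • g with hf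
  have hfn : ‖f‖ = 1 := by
    rw [hf, norm_smul, Complex.norm_real, norm_inv, norm_norm, inv_mul_cancel₀ hn]
  have hfS : f ∈ S2 := S2.smul_mem _ hg
  have hfr : (⟪f, V f⟫_ℂ).re = 1 / 2 := by
    rw [hf, map_smul, inner_smul_left, inner_smul_right, Complex.conj_ofReal, ← mul_assoc,
      ← Complex.ofReal_mul, Complex.re_ofReal_mul]
    have : (⟪g, V g⟫_ℂ).re = ‖g‖ ^ 2 / 2 := by rw [hgn]; ring
    rw [this]
    field_simp
  have hmem : ⟪f, V f⟫_ℂ ∈ NR Prod.fst S2 := (mem_NR _).2 ⟨f, hfS, hfn, rfl⟩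
  obtain ⟨ε, hε, hball⟩ := Metric.isOpen_iff.1 hopen _ hmem
  have h1 : ⟪f, V f⟫_ℂ + ((ε / 2 : ℝ) : ℂ) ∈ NR Prod.fst S2 := by
    apply hball
    rw [Metric.mem_ball, dist_eq_norm, add_sub_cancel_left, Complex.norm_real, Real.norm_of_nonneg]
    · linarith
    · linarith
  obtain ⟨k, hk, hkn, hkc⟩ := (mem_NR _).1 h1
  have h2 := ineq k hk
  rw [← hkc, hkn, Complex.add_re, hfr, Complex.ofReal_re] at h2
  linarith

theorem conj_unit (w : ℂ) (hw : ‖w‖ = 1) : w * conj w = 1 := by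
  rw [Complex.mul_conj, Complex.normSq_eq_norm_sq, hw]; norm_num

theorem norm_theta_torus (z : ℂ × ℂ) (h1 : ‖z.1‖ = 1) (h2 : ‖z.2‖ = 1) : ‖theta z‖ = 1 := by
  have hp := pp_ne z h1.le h2.le
  have e1 := conj_unit z.1 h1
  have e2 := conj_unit z.2 h2
  have h3 : qq z = z.1 ^ 2 * z.2 * conj (pp z) := by
    unfold qq pp bb
    simp only [map_add, map_sub, map_mul, map_pow, map_one, Complex.conj_ofNat]
    have e3 : z.1 ^ 2 * conj z.1 ^ 2 = 1 := by rw [← mul_pow, e1, one_pow]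
    linear_combination (-z.1 ^ 2 * (conj z.1 ^ 2 - conj z.1 + 1)) * e2 - e3 + z.1 * e1
  rw [theta, h3, norm_div, norm_mul, norm_mul, norm_pow, h1, h2, Complex.norm_conj]
  rw [one_pow, one_mul, one_mul, div_self (norm_ne_zero_iff.2 hp)]

theorem radial (a : ℝ × ℝ) : Tendsto (fun r : ℝ =>
    ‖theta ((r : ℂ) * Complex.exp (a.1 * Complex.I), (r : ℂ) * Complex.exp (a.2 * Complex.I))‖)
    (𝓝[<] 1) (𝓝 1) := by
  have hn : ∀ x : ℝ, ‖Complex.exp (x * Complex.I)‖ = 1 := Complex.norm_exp_ofReal_mul_I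
  have h0 : ‖theta (((1 : ℝ) : ℂ) * Complex.exp (a.1 * Complex.I),
      ((1 : ℝ) : ℂ) * Complex.exp (a.2 * Complex.I))‖ = 1 := by
    apply norm_theta_torus <;> simp [hn]
  have hc : ContinuousAt (fun r : ℝ =>
      ‖theta ((r : ℂ) * Complex.exp (a.1 * Complex.I), (r : ℂ) * Complex.exp (a.2 * Complex.I))‖)
      1 := by
    have hp : pp (((1 : ℝ) : ℂ) * Complex.exp (a.1 * Complex.I),
        ((1 : ℝ) : ℂ) * Complex.exp (a.2 * Complex.I)) ≠ 0 := by
      apply pp_ne <;> simp [hn]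
    refine ContinuousAt.norm ?_
    unfold theta
    refine ContinuousAt.div ?_ ?_ hp
    · unfold qq bb
      fun_prop
    · unfold pp bb
      fun_prop
  have := hc.tendsto
  simp only [h0] at this
  exact this.mono_left nhdsWithin_le_nhds

theorem not_split : ¬ ∃ f g : ℂ → ℂ, ∀ z ∈ bidisk, theta z = f z.1 * g z.2 := by
  rintro ⟨f, g, h⟩
  have h1 := h (0, 0) (by constructor <;> simp)
  have h2 := h (1 / 2, 1 / 2) (by constructor <;> norm_num)
  have h3 := h (1 / 2, 0) (by constructor <;> norm_num)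
  have h4 := h (0, 1 / 2) (by constructor <;> norm_num)
  have h5 : theta (0, 0) * theta (1 / 2, 1 / 2) = theta (1 / 2, 0) * theta (0, 1 / 2) := by
    rw [h1, h2, h3, h4]; ring
  simp only [theta, qq, pp, bb] at h5
  norm_num at h5

end

end Pool.Agent.X202.Agl
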