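import Pool.Agent.X202.Agl.U

set_option autoImplicit false

open scoped InnerProductSpace ENNReal ComplexConjugate
open Filter Topology

namespace Pool.Agent.X202.Agl

noncomputable section

/-- exchange of the variables -/
def X : H2 →ₗᵢ[ℂ] H2 := sh Prod.swap Prod.swap_injective

theorem X_apply (f : H2) (n : ℕ × ℕ) : X f n = f n.swap := by
  have := sh_apply Prod.swap Prod.swap_injective f n.swap
  rw [Prod.swap_swap] at this
  exact this

theorem XX (f : H2) : X (X f) = f := by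
  ext n
  rw [X_apply, X_apply, Prod.swap_swap]

theorem X_inner (f g : H2) : ⟪X f, g⟫_ℂ = ⟪f, X g⟫_ℂ := by
  rw [← X.inner_map_map f (X g), XX]

theorem val_X (f : H2) (z : ℂ × ℂ) : val (X f) z = val f z.swap := by
  unfold val
  rw [← (Equiv.prodComm ℕ ℕ).tsum_eq]
  refine tsum_congr fun n => ?_
  change X f n.swap * z.1 ^ n.2 * z.2 ^ n.1 = f n * z.2 ^ n.1 * z.1 ^ n.2
  rw [X_apply, Prod.swap_swap]; ring

theorem XV (f : H2) : X (V f) = W (X f) := by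
  ext ⟨k, l⟩
  rw [X_apply]
  change V f (l, k) = _
  rcases l with _ | l
  · rw [V_zero, W_zero]
  · rw [V_succ, W_succ, X_apply]; rfl

theorem XW (f : H2) : X (W f) = V (X f) := by
  rw [← XX (V (X f)), XV, XX]

theorem XV' (f : H2) : X (V' f) = W' (X f) := by
  ext ⟨k, l⟩
  rw [X_apply, W'_apply, X_apply]
  change V' f (l, k) = f (l + 1, k)
  rw [V'_apply]

theorem swap_mem {z : ℂ × ℂ} (hz : z ∈ bidisk) : z.swap ∈ bidisk := ⟨hz.2, hz.1⟩

theorem times_X {θ : ℂ × ℂ → ℂ} {f g : H2} (h : Times θ f g) :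
    Times (fun z => θ z.swap) (X f) (X g) := by
  intro z hz
  rw [val_X, val_X, h _ (swap_mem hz)]

theorem mem_KS_X {θ : ℂ × ℂ → ℂ} {h : H2} (hh : h ∈ KS (fun z => θ z.swap)) : X h ∈ KS θ := by
  intro f g hfg
  rw [← X_inner]
  exact hh _ _ (times_X hfg)

theorem mem_KS_X' {θ : ℂ × ℂ → ℂ} {h : H2} (hh : h ∈ KS θ) : X h ∈ KS (fun z => θ z.swap) := by
  intro f g hfg
  rw [← X_inner]
  have := times_X hfg
  simp only [Prod.swap_swap] at this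
  exact hh _ _ this

theorem core_fst {θ : ℂ × ℂ → ℂ} (hθ : Inn θ)
    (M1 M2 : Submodule ℂ H2) (le1 : M1 ≤ KS θ) (le2 : M2 ≤ KS θ)
    (inv1 : ∀ f ∈ M1, V f ∈ M1) (inv2 : ∀ f ∈ M2, W f ∈ M2)
    (red : ∀ f ∈ M2, ∀ s ∈ KS θ, (∀ h ∈ KS θ, ⟪h, V f - s⟫_ℂ = 0) → s ∈ M2)
    (red' : ∀ f ∈ M2, V' f ∈ M2)
    (dense : ∀ h ∈ KS θ, (∀ m ∈ M1, ⟪m, h⟫_ℂ = 0) → (∀ m ∈ M2, ⟪m, h⟫_ℂ = 0) → h = 0) :
    ∃ φ ψ : ℂ → ℂ, ∀ z ∈ bidisk, θ z = φ z.1 * ψ z.2 := by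
  obtain ⟨M, hM⟩ := exists_mul hθ
  exact factor hM (mkData M hM M1 M2 le1 le2 inv1 inv2 red red' dense)

theorem core_snd {θ : ℂ × ℂ → ℂ} (hθ : Inn θ)
    (M1 M2 : Submodule ℂ H2) (le1 : M1 ≤ KS θ) (le2 : M2 ≤ KS θ)
    (inv1 : ∀ f ∈ M1, V f ∈ M1) (inv2 : ∀ f ∈ M2, W f ∈ M2)
    (red : ∀ f ∈ M1, ∀ s ∈ KS θ, (∀ h ∈ KS θ, ⟪h, W f - s⟫_ℂ = 0) → s ∈ M1)
    (red' : ∀ f ∈ M1, W' f ∈ M1)
    (dense : ∀ h ∈ KS θ, (∀ m ∈ M1, ⟪m, h⟫_ℂ = 0) → (∀ m ∈ M2, ⟪m, h⟫_ℂ = 0) → h = 0) :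
    ∃ φ ψ : ℂ → ℂ, ∀ z ∈ bidisk, θ z = φ z.1 * ψ z.2 := by
  have hθ' : Inn (fun z => θ z.swap) := by
    intro f
    obtain ⟨g, hg, hn⟩ := hθ (X f)
    refine ⟨X g, ?_, ?_⟩
    · have := times_X hg
      rw [XX] at this
      exact this
    · rw [X.norm_map, hn, X.norm_map]
  obtain ⟨φ, ψ, h⟩ := core_fst hθ' (M2.comap X.toLinearMap) (M1.comap X.toLinearMap)
    (fun f hf => by
      have := mem_KS_X' (le2 (show X f ∈ M2 from hf))
      rwa [XX] at this)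
    (fun f hf => by
      have := mem_KS_X' (le1 (show X f ∈ M1 from hf))
      rwa [XX] at this)
    (fun f hf => by
      change X (V f) ∈ M2
      rw [XV]; exact inv2 _ hf)
    (fun f hf => by
      change X (W f) ∈ M1
      rw [XW]; exact inv1 _ hf)
    (fun f hf s hs ho => by
      change X s ∈ M1
      refine red (X f) hf _ (mem_KS_X hs) fun h hh => ?_
      rw [← XV, ← map_sub, ← X_inner]
      exact ho _ (mem_KS_X' hh))
    (fun f hf => by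
      change X (V' f) ∈ M1
      rw [XV']; exact red' _ hf)
    (fun h hh o1 o2 => by
      have h1 : X h = 0 := by
        refine dense _ (mem_KS_X hh) (fun m hm => ?_) (fun m hm => ?_)
        · rw [← X_inner]
          exact o2 _ (by change X (X m) ∈ M1; rw [XX]; exact hm)
        · rw [← X_inner]
          exact o1 _ (by change X (X m) ∈ M2; rw [XX]; exact hm)
      rw [← XX h, h1, map_zero])
  refine ⟨ψ, φ, fun z hz => ?_⟩
  have := h z.swap (swap_mem hz)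
  rw [Prod.swap_swap] at this
  rw [this]
  simp only [Prod.fst_swap, Prod.snd_swap]
  ring

end

end Pool.Agent.X202.Agl
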