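import Pool.Agent.X202.Agl.Den
import Pool.Agent.X202.Agl.Swp

set_option autoImplicit false

open scoped InnerProductSpace ENNReal ComplexConjugate
open Filter Topology

namespace Pool.Agent.X202.Agl

noncomputable section

theorem Vq_succ (k : ℕ) (f : H2) : (V ^ (k + 1)) f = V ((V ^ k) f) := by
  rw [pow_succ']; rfl

theorem Vq_add (k l : ℕ) (f : H2) : (V ^ (k + l)) f = (V ^ k) ((V ^ l) f) := by
  rw [pow_add]; rfl

theorem Vq_inner (k : ℕ) (f g : H2) : ⟪(V ^ k) f, (V ^ k) g⟫_ℂ = ⟪f, g⟫_ℂ := by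
  induction k with
  | zero => simp
  | succ k ih => rw [Vq_succ, Vq_succ, V_inner, V'V, ih]

theorem Vq_norm (k : ℕ) (f : H2) : ‖(V ^ k) f‖ = ‖f‖ := by
  induction k with
  | zero => simp
  | succ k ih => rw [Vq_succ, norm_V, ih]

theorem val_Vq (k : ℕ) (f : H2) (z : ℂ × ℂ) : val ((V ^ k) f) z = z.1 ^ k * val f z := by
  induction k with
  | zero => simp
  | succ k ih => rw [Vq_succ, val_V, ih]; ring

theorem val_Wp (k : ℕ) (f : H2) (z : ℂ × ℂ) : val ((W ^ k) f) z = z.2 ^ k * val f z := by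
  induction k with
  | zero => simp
  | succ k ih => rw [Wp_succ, val_W, ih]; ring

theorem V'Wp (k : ℕ) (f : H2) (hf : V' f = 0) : V' ((W ^ k) f) = 0 := by
  induction k with
  | zero => simpa using hf
  | succ k ih => rw [Wp_succ, ← WV', ih, map_zero]

theorem orth2 (u : H2) (hn : ‖u‖ = 1) (hu : V' u = 0) (huu : ∀ m, ⟪u, (W ^ (m + 1)) u⟫_ℂ = 0) :
    Orthonormal ℂ (fun n : ℕ × ℕ => (V ^ n.1) ((W ^ n.2) u)) := by
  refine ⟨fun n => by rw [Vq_norm, Wp_norm, hn], ?_⟩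
  rintro ⟨k, l⟩ ⟨k', l'⟩ hij
  change ⟪(V ^ k) ((W ^ l) u), (V ^ k') ((W ^ l') u)⟫_ℂ = 0
  rcases lt_trichotomy k k' with h | h | h
  · obtain ⟨m, rfl⟩ : ∃ m, k' = k + (m + 1) := ⟨k' - k - 1, by omega⟩
    rw [Vq_add, Vq_inner, Vq_succ, ← V'_inner, V'Wp l u hu, inner_zero_left]
  · subst h
    rw [Vq_inner]
    exact (orth_self u hn huu).2 (fun h => hij (by rw [h]))
  · obtain ⟨m, rfl⟩ : ∃ m, k = k' + (m + 1) := ⟨k - k' - 1, by omega⟩
    rw [Vq_add, Vq_inner, Vq_succ, V_inner, V'Wp l' u hu, inner_zero_right]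

theorem inn_of_orth (u : H2) (ho : Orthonormal ℂ (fun n : ℕ × ℕ => (V ^ n.1) ((W ^ n.2) u))) :
    ∃ J : H2 →ₗᵢ[ℂ] H2, ∀ f, Times (val u) f (J f) := by
  refine ⟨ho.orthogonalFamily.linearIsometry, fun f z hz => ?_⟩
  have h1 := ho.orthogonalFamily.hasSum_linearIsometry f
  have h2 : HasSum (fun n : ℕ × ℕ => ⟪sz z, f n • (V ^ n.1) ((W ^ n.2) u)⟫_ℂ)
      ⟪sz z, ho.orthogonalFamily.linearIsometry f⟫_ℂ := (innerSL ℂ (sz z)).hasSum h1
  rw [sz_inner z hz] at h2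
  rw [← h2.tsum_eq, mul_comm]
  unfold val
  rw [← tsum_mul_right]
  refine tsum_congr fun n => ?_
  rw [inner_smul_right, sz_inner z hz, val_Vq, val_Wp]
  unfold val
  ring

theorem norm_one' : ‖one‖ = 1 := by
  have h1 : ⟪one, one⟫_ℂ = 1 := by
    rw [lp.inner_eq_tsum, tsum_eq_single (0, 0)]
    · rw [one_zero]; simp
    · rintro ⟨k, l⟩ h
      have : one (k, l) = 0 := by
        simp only [one, lp.single_apply]
        rw [Pi.single_eq_of_ne h]
      rw [this]; simp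
  have h2 : (⟪one, one⟫_ℂ).re = ‖one‖ ^ 2 := by
    rw [inner_self_eq_norm_sq_to_K]; norm_cast
  rw [h1, Complex.one_re] at h2
  nlinarith [norm_nonneg one, sq_nonneg (‖one‖ - 1)]

theorem val_row (u : H2) (hu : ∀ k l, u (k + 1, l) = 0) (z : ℂ × ℂ) :
    val u z = ∑' l, u (0, l) * z.2 ^ l := by
  unfold val
  have hinj : Function.Injective (fun l : ℕ => ((0, l) : ℕ × ℕ)) := fun a b h => by simpa using h
  rw [← hinj.tsum_eq]
  · refine tsum_congr fun l => ?_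
    simp
  · rintro ⟨k, l⟩ hn
    rcases k with _ | k
    · exact ⟨l, rfl⟩
    · exfalso; apply hn
      change u (k + 1, l) * _ * _ = 0
      rw [hu]; ring

theorem val_col (u : H2) (hu : ∀ k l, u (k, l + 1) = 0) (z : ℂ × ℂ) :
    val u z = ∑' k, u (k, 0) * z.1 ^ k := by
  unfold val
  have hinj : Function.Injective (fun k : ℕ => ((k, 0) : ℕ × ℕ)) := fun a b h => by simpa using h
  rw [← hinj.tsum_eq]
  · refine tsum_congr fun l => ?_
    simp
  · rintro ⟨k, l⟩ hn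
    rcases l with _ | l
    · exact ⟨k, rfl⟩
    · exfalso; apply hn
      change u (k, l + 1) * _ * _ = 0
      rw [hu]; ring

theorem factor' {θ : ℂ × ℂ → ℂ} {K M1 M2 : Submodule ℂ H2} (M : H2 →ₗᵢ[ℂ] H2)
    (hM : ∀ f, Times θ f (M f)) (D : Data M K M1 M2) :
    ∃ φ ψ : ℂ → ℂ, Inn (fun z => φ z.1) ∧ Inn (fun z => ψ z.2) ∧
      ∀ z ∈ bidisk, θ z = φ z.1 * ψ z.2 := by
  obtain ⟨ψ, c, k0, l0, hl0, hψ, hc⟩ := D.main
  set x := M one with hx
  have hb : ∀ n, ‖x n‖ ≤ ‖x‖ := fun n => lp.norm_apply_le_norm (by norm_num) x n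
  have bψ : ∀ l, ‖ψ l‖ ≤ ‖x‖ := fun l => by rw [hψ]; exact hb _
  have bc : ∀ k, ‖c k‖ ≤ ‖x‖ / ‖ψ l0‖ := by
    intro k
    rw [le_div_iff₀ (norm_pos_iff.2 hl0), ← norm_mul, ← hc]
    exact hb _
  have hsum : ∀ (b : ℕ → ℂ) (C : ℝ), (∀ n, ‖b n‖ ≤ C) → ∀ z : ℂ, ‖z‖ < 1 →
      Summable (fun n => ‖b n * z ^ n‖) := by
    intro b C hb z hz
    refine Summable.of_nonneg_of_le (fun _ => norm_nonneg _) (fun n => ?_)
      ((summable_geometric_of_lt_one (norm_nonneg _) hz).mul_left C)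
    rw [norm_mul, norm_pow]
    exact mul_le_mul_of_nonneg_right (hb n) (by positivity)
  -- product formula
  have hprod : ∀ z ∈ bidisk, val x z = (∑' k, c k * z.1 ^ k) * ∑' l, ψ l * z.2 ^ l := by
    intro z hz
    rw [tsum_mul_tsum_of_summable_norm (hsum c _ bc z.1 hz.1) (hsum ψ _ bψ z.2 hz.2)]
    unfold val
    refine tsum_congr fun n => ?_
    rcases n with ⟨k, l⟩
    change x (k, l) * z.1 ^ k * z.2 ^ l = _
    rw [hc]; ring
  -- the row
  set u0 := row x k0 with hu0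
  have u0l : ∀ l, u0 (0, l) = ψ l := fun l => by rw [hu0, row_apply, hψ]
  have u0V : V' u0 = 0 := V'row x k0
  have u0s : ∀ k l, u0 (k + 1, l) = 0 := by
    intro k l
    rw [← V'_apply, u0V]; rfl
  have u0ne : u0 ≠ 0 := by
    intro h
    apply hl0
    rw [← u0l, h]; rfl
  have hν : ‖u0‖ ≠ 0 := norm_ne_zero_iff.2 u0ne
  set ν : ℂ := ((‖u0‖ : ℝ) : ℂ) with hνd
  have hν0 : ν ≠ 0 := by rw [hνd]; exact_mod_cast hν
  set p : H2 := ν⁻¹ • u0 with hp
  have pn : ‖p‖ = 1 := by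
    rw [hp, norm_smul, norm_inv, hνd, Complex.norm_real, norm_norm, inv_mul_cancel₀ hν]
  have pV : V' p = 0 := by rw [hp, map_smul, u0V, smul_zero]
  have pp' : ∀ m, ⟪p, (W ^ (m + 1)) p⟫_ℂ = 0 := by
    intro m
    rw [hp, map_smul, inner_smul_left, inner_smul_right, hu0, hx, D.rows]; ring
  obtain ⟨J, hJ⟩ := inn_of_orth p (orth2 p pn pV pp')
  have vp : ∀ z, val p z = ν⁻¹ * ∑' l, ψ l * z.2 ^ l := by
    intro z
    rw [hp, val_smul, val_row u0 u0s]
    simp only [u0l]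
  -- the column
  set q : H2 := (ν * (ψ l0)⁻¹) • X (row (X x) l0) with hq
  have qs : ∀ k l, X (row (X x) l0) (k, l + 1) = 0 := by
    intro k l
    rw [X_apply]
    change row (X x) l0 (l + 1, k) = 0
    rw [← V'_apply, V'row]; rfl
  have qc : ∀ k, X (row (X x) l0) (k, 0) = c k * ψ l0 := by
    intro k
    rw [X_apply]
    change row (X x) l0 (0, k) = _
    rw [row_apply, X_apply, ← hc]; rfl
  have vq : ∀ z, val q z = ν * ∑' k, c k * z.1 ^ k := by
    intro z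
    rw [hq, val_smul, val_col _ qs]
    simp only [qc]
    rw [mul_assoc, ← tsum_mul_left]
    congr 1
    refine tsum_congr fun k => ?_
    field_simp
  have hJq : J q = x := by
    apply val_inj
    intro z hz
    rw [hJ q z hz, vp, vq, hprod z hz]
    field_simp
  have JV : ∀ f, J (V f) = V (J f) := fun f =>
    times_unique (hJ (V f)) fun z hz => by rw [val_V, val_V, hJ f z hz]; ring
  have JW : ∀ f, J (W f) = W (J f) := fun f =>
    times_unique (hJ (W f)) fun z hz => by rw [val_W, val_W, hJ f z hz]; ring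
  have powJ : ∀ (T : H2 →ₗᵢ[ℂ] H2), (∀ f, T (V f) = V (T f)) → (∀ f, T (W f) = W (T f)) →
      ∀ (k l : ℕ) (f : H2), T ((V ^ k) ((W ^ l) f)) = (V ^ k) ((W ^ l) (T f)) := by
    intro T hV hW k l f
    have h1 : ∀ (k : ℕ) (f : H2), T ((V ^ k) f) = (V ^ k) (T f) := by
      intro k f
      induction k with
      | zero => simp
      | succ k ih => rw [Vq_succ, hV, ih, Vq_succ]
    have h2 : ∀ (k : ℕ) (f : H2), T ((W ^ k) f) = (W ^ k) (T f) := by
      intro k f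
      induction k with
      | zero => simp
      | succ k ih => rw [Wp_succ, hW, ih, Wp_succ]
    rw [h1, h2]
  have oq : Orthonormal ℂ (fun n : ℕ × ℕ => (V ^ n.1) ((W ^ n.2) q)) := by
    have o1 := orth2 one norm_one' V'one (fun m => by
      rw [Wp_succ, ← W'_inner, W'one, inner_zero_left])
    rw [← J.orthonormal_comp_iff]
    have e : (J ∘ fun n : ℕ × ℕ => (V ^ n.1) ((W ^ n.2) q)) =
        M ∘ fun n : ℕ × ℕ => (V ^ n.1) ((W ^ n.2) one) := by
      funext n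
      change J ((V ^ n.1) ((W ^ n.2) q)) = M ((V ^ n.1) ((W ^ n.2) one))
      rw [powJ J JV JW, powJ M D.MV D.MW, hJq]
    rw [e, M.orthonormal_comp_iff]
    exact o1
  obtain ⟨J', hJ'⟩ := inn_of_orth q oq
  refine ⟨fun a => ν * ∑' k, c k * a ^ k, fun b => ν⁻¹ * ∑' l, ψ l * b ^ l, ?_, ?_, ?_⟩
  · intro f
    refine ⟨J' f, fun z hz => ?_, J'.norm_map f⟩
    rw [hJ' f z hz, vq]
  · intro f
    refine ⟨J f, fun z hz => ?_, J.norm_map f⟩
    rw [hJ f z hz, vp]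
  · intro z hz
    have h1 : θ z = val x z := by
      rw [hx, hM one z hz, val_one, mul_one]
    rw [h1, hprod z hz]
    field_simp

end

end Pool.Agent.X202.Agl
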