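import Pool.Agent.X202.Agl.U

set_option autoImplicit false

open scoped InnerProductSpace ENNReal ComplexConjugate
open Filter Topology

namespace Pool.Agent.X202.Agl

noncomputable section

/-- positive kernel on the bidisk -/
def Pos (k : ℂ × ℂ → ℂ × ℂ → ℂ) : Prop :=
  (∀ z ∈ bidisk, ∀ w ∈ bidisk, k w z = conj (k z w)) ∧
  ∀ (ι : Type) [Fintype ι] (z : ι → ℂ × ℂ) (c : ι → ℂ), (∀ i, z i ∈ bidisk) →
    0 ≤ (∑ i, ∑ j, c i * conj (c j) * k (z i) (z j)).re

theorem Pos.congr {k k' : ℂ × ℂ → ℂ × ℂ → ℂ} (h : Pos k)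
    (he : ∀ z ∈ bidisk, ∀ w ∈ bidisk, k' z w = k z w) : Pos k' := by
  refine ⟨fun z hz w hw => ?_, fun ι _ z c hz => ?_⟩
  · rw [he w hw z hz, he z hz w hw, h.1 z hz w hw]
  · have h1 := h.2 ι z c hz
    have h2 : (∑ i, ∑ j, c i * conj (c j) * k' (z i) (z j)) =
        ∑ i, ∑ j, c i * conj (c j) * k (z i) (z j) :=
      Finset.sum_congr rfl fun i _ => Finset.sum_congr rfl fun j _ => by
        rw [he _ (hz i) _ (hz j)]
    rw [h2]; exact h1

theorem Pos.add {k k' : ℂ × ℂ → ℂ × ℂ → ℂ} (h : Pos k) (h' : Pos k') :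
    Pos (fun z w => k z w + k' z w) := by
  refine ⟨fun z hz w hw => ?_, fun ι _ z c hz => ?_⟩
  · beta_reduce
    rw [h.1 z hz w hw, h'.1 z hz w hw, map_add]
  · have h1 := h.2 ι z c hz
    have h2 := h'.2 ι z c hz
    simp only [mul_add, Finset.sum_add_distrib, Complex.add_re]
    exact add_nonneg h1 h2

theorem Pos.smul {k : ℂ × ℂ → ℂ × ℂ → ℂ} (h : Pos k) (C : ℝ) (hC : 0 ≤ C) :
    Pos (fun z w => (C : ℂ) * k z w) := by
  refine ⟨fun z hz w hw => ?_, fun ι _ z c hz => ?_⟩
  · beta_reduce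
    rw [h.1 z hz w hw, map_mul, Complex.conj_ofReal]
  · have h1 := h.2 ι z c hz
    have h2 : (∑ i, ∑ j, c i * conj (c j) * ((C : ℂ) * k (z i) (z j))) =
        (C : ℂ) * ∑ i, ∑ j, c i * conj (c j) * k (z i) (z j) := by
      rw [Finset.mul_sum]
      refine Finset.sum_congr rfl fun i _ => ?_
      rw [Finset.mul_sum]
      refine Finset.sum_congr rfl fun j _ => ?_
      ring
    rw [h2, Complex.re_ofReal_mul]
    exact mul_nonneg hC h1

theorem Pos.twist {k : ℂ × ℂ → ℂ × ℂ → ℂ} (h : Pos k) (g : ℂ × ℂ → ℂ) :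
    Pos (fun z w => g z * conj (g w) * k z w) := by
  refine ⟨fun z hz w hw => ?_, fun ι _ z c hz => ?_⟩
  · beta_reduce
    rw [h.1 z hz w hw, map_mul, map_mul, Complex.conj_conj]; ring
  · have h1 := h.2 ι z (fun i => c i * g (z i)) hz
    have h2 : (∑ i, ∑ j, c i * conj (c j) * (g (z i) * conj (g (z j)) * k (z i) (z j))) =
        ∑ i, ∑ j, (c i * g (z i)) * conj (c j * g (z j)) * k (z i) (z j) := by
      refine Finset.sum_congr rfl fun i _ => Finset.sum_congr rfl fun j _ => ?_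
      rw [map_mul]; ring
    rw [h2]; exact h1

theorem one_sub_ne (a b : ℂ) (ha : ‖a‖ < 1) (hb : ‖b‖ < 1) : 1 - a * conj b ≠ 0 := by
  intro h
  have h1 : a * conj b = 1 := by linear_combination -h
  have h2 : ‖a * conj b‖ < 1 := by
    rw [norm_mul, Complex.norm_conj]
    nlinarith [norm_nonneg a, norm_nonneg b]
  rw [h1, norm_one] at h2
  exact lt_irrefl _ h2

/-- dividing by `1 - a(z) conj a(w)` -/
theorem Pos.div {k : ℂ × ℂ → ℂ × ℂ → ℂ} (h : Pos k) (a : ℂ × ℂ → ℂ)
    (ha : ∀ z ∈ bidisk, ‖a z‖ < 1) :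
    Pos (fun z w => k z w / (1 - a z * conj (a w))) := by
  refine ⟨fun z hz w hw => ?_, fun ι _ z c hz => ?_⟩
  · beta_reduce
    rw [h.1 z hz w hw, map_div₀, map_sub, map_mul, map_one, Complex.conj_conj, mul_comm (a w)]
  · have hs : HasSum (fun n : ℕ => ∑ i, ∑ j, (c i * a (z i) ^ n) * conj (c j * a (z j) ^ n) *
        k (z i) (z j)) (∑ i, ∑ j, c i * conj (c j) *
          (k (z i) (z j) / (1 - a (z i) * conj (a (z j))))) := by
      refine hasSum_sum fun i _ => hasSum_sum fun j _ => ?_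
      have hlt : ‖a (z i) * conj (a (z j))‖ < 1 := by
        rw [norm_mul, Complex.norm_conj]
        nlinarith [norm_nonneg (a (z i)), norm_nonneg (a (z j)), ha _ (hz i), ha _ (hz j)]
      have h1 := (hasSum_geometric_of_norm_lt_one hlt).mul_left (c i * conj (c j) * k (z i) (z j))
      have e1 : (fun n : ℕ => (c i * a (z i) ^ n) * conj (c j * a (z j) ^ n) * k (z i) (z j)) =
          fun n : ℕ => c i * conj (c j) * k (z i) (z j) * (a (z i) * conj (a (z j))) ^ n := by
        funext n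
        rw [map_mul, map_pow, mul_pow]; ring
      have e2 : c i * conj (c j) * (k (z i) (z j) / (1 - a (z i) * conj (a (z j)))) =
          c i * conj (c j) * k (z i) (z j) * (1 - a (z i) * conj (a (z j)))⁻¹ := by
        rw [div_eq_mul_inv]; ring
      rw [e1, e2]
      exact h1
    have h2 := Complex.hasSum_re hs
    rw [← h2.tsum_eq]
    exact tsum_nonneg fun n => h.2 ι z (fun i => c i * a (z i) ^ n) hz

/-- Cauchy-Schwarz for kernels -/
theorem Pos.cs {k : ℂ × ℂ → ℂ × ℂ → ℂ} (h : Pos k) (w : ℂ × ℂ) (hw : w ∈ bidisk) :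
    0 ≤ (k w w).re ∧ Pos (fun x y => ((k w w).re : ℂ) * k x y - k x w * conj (k y w)) := by
  have ha : 0 ≤ (k w w).re := by
    have := h.2 Unit (fun _ => w) (fun _ => 1) (fun _ => hw)
    simpa using this
  refine ⟨ha, fun z hz y hy => ?_, fun ι _ z c hz => ?_⟩
  · beta_reduce
    rw [h.1 z hz y hy, map_sub, map_mul, map_mul, Complex.conj_conj, Complex.conj_ofReal]; ring
  · set r := (∑ i, ∑ j, c i * conj (c j) * k (z i) (z j)).re with hr
    set b := ∑ i, c i * k (z i) w with hb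
    have hr0 : 0 ≤ r := h.2 ι z c hz
    have hbb : b * conj b = ∑ i, ∑ j, c i * conj (c j) * (k (z i) w * conj (k (z j) w)) := by
      rw [hb, map_sum, Finset.sum_mul_sum]
      refine Finset.sum_congr rfl fun i _ => Finset.sum_congr rfl fun j _ => ?_
      rw [map_mul]; ring
    have hnb : (b * conj b).re = ‖b‖ ^ 2 := by
      rw [Complex.mul_conj, Complex.normSq_eq_norm_sq, Complex.ofReal_re]
    have e1 : (∑ i, ∑ j, c i * conj (c j) * (((k w w).re : ℂ) * k (z i) (z j) -
        k (z i) w * conj (k (z j) w))) =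
        ((k w w).re : ℂ) * (∑ i, ∑ j, c i * conj (c j) * k (z i) (z j)) - b * conj b := by
      rw [hbb, Finset.mul_sum, ← Finset.sum_sub_distrib]
      refine Finset.sum_congr rfl fun i _ => ?_
      rw [Finset.mul_sum, ← Finset.sum_sub_distrib]
      refine Finset.sum_congr rfl fun j _ => ?_
      ring
    rw [e1, Complex.sub_re, Complex.re_ofReal_mul, ← hr, hnb]
    -- quadratic in t
    have hq : ∀ t : ℝ, 0 ≤ ((k w w).re * ‖b‖ ^ 2) * (t * t) + (-2 * ‖b‖ ^ 2) * t + r := by
      intro t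
      have h1 := h.2 (Option ι) (fun o => o.elim w z) (fun o => o.elim (-(t : ℂ) * b) c)
        (fun o => by cases o <;> simp [hw, hz])
      simp only [Fintype.sum_option, Option.elim_none, Option.elim_some,
        Finset.sum_add_distrib, Complex.add_re] at h1
      rw [← hr] at h1
      have e2 : (∑ i, c i * conj (-(t : ℂ) * b) * k (z i) w) = -(t : ℂ) * (b * conj b) := by
        rw [map_mul, map_neg, Complex.conj_ofReal]
        have : ∀ i, c i * (-(t : ℂ) * conj b) * k (z i) w = (-(t : ℂ) * conj b) * (c i * k (z i) w) :=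
          fun i => by ring
        simp only [this]
        rw [← Finset.mul_sum, ← hb]; ring
      have e3 : (∑ j, -(t : ℂ) * b * conj (c j) * k w (z j)) = -(t : ℂ) * (b * conj b) := by
        have : ∀ j, -(t : ℂ) * b * conj (c j) * k w (z j) = (-(t : ℂ) * b) * conj (c j * k (z j) w) := by
          intro j
          rw [map_mul, h.1 (z j) (hz j) w hw]; ring
        simp only [this]
        rw [← Finset.mul_sum, ← map_sum, ← hb]; ring
      have e4 : (-(t : ℂ) * b * conj (-(t : ℂ) * b) * k w w).re = (k w w).re * ‖b‖ ^ 2 * (t * t) := by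
        have : -(t : ℂ) * b * conj (-(t : ℂ) * b) * k w w = ((t * t * ‖b‖ ^ 2 : ℝ) : ℂ) * k w w := by
          have hb2 : b * conj b = ((‖b‖ ^ 2 : ℝ) : ℂ) := by
            rw [Complex.mul_conj, Complex.normSq_eq_norm_sq]
          rw [map_mul, map_neg, Complex.conj_ofReal]
          push_cast at hb2 ⊢
          linear_combination ((t : ℂ) * t * k w w) * hb2
        rw [this, Complex.re_ofReal_mul]; ring
      have e5 : (-(t : ℂ) * (b * conj b)).re = -t * ‖b‖ ^ 2 := by
        rw [← hnb, ← Complex.ofReal_neg, Complex.re_ofReal_mul]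
      rw [e2, e3, e4, e5] at h1
      linarith
    have hd := discrim_le_zero hq
    unfold discrim at hd
    by_cases hb0 : ‖b‖ ^ 2 = 0
    · rw [hb0]; simpa using mul_nonneg ha hr0
    · have hbp : 0 < ‖b‖ ^ 2 := lt_of_le_of_ne (by positivity) (Ne.symm hb0)
      have : 0 ≤ ‖b‖ ^ 2 * ((k w w).re * r - ‖b‖ ^ 2) := by nlinarith
      exact nonneg_of_mul_nonneg_right this hbp

end

end Pool.Agent.X202.Agl
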