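import Pool.Agent.X202.Agl.E

set_option autoImplicit false

open scoped InnerProductSpace ENNReal ComplexConjugate
open Filter Topology

namespace Pool.Agent.X202.Agl

noncomputable section

theorem Wp_succ (k : ℕ) (f : H2) : (W ^ (k + 1)) f = W ((W ^ k) f) := by
  rw [pow_succ']; rfl

theorem Wp_succ' (k : ℕ) (f : H2) : (W ^ (k + 1)) f = (W ^ k) (W f) := by
  rw [pow_succ]; rfl

theorem Wp_add (k l : ℕ) (f : H2) : (W ^ (k + l)) f = (W ^ k) ((W ^ l) f) := by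
  rw [pow_add]; rfl

theorem Wp_apply (k : ℕ) (f : H2) (j : ℕ) : ∀ l : ℕ,
    (W ^ k) f (j, l) = if k ≤ l then f (j, l - k) else 0 := by
  induction k with
  | zero => intro l; simp
  | succ k ih =>
    intro l
    rw [Wp_succ]
    rcases l with _ | l
    · rw [W_zero]; simp
    · rw [W_succ, ih, show l + 1 - (k + 1) = l - k by omega]
      by_cases h : k ≤ l
      · rw [if_pos h, if_pos (by omega)]
      · rw [if_neg h, if_neg (by omega)]

theorem Wp_inner (k : ℕ) (f g : H2) : ⟪(W ^ k) f, (W ^ k) g⟫_ℂ = ⟪f, g⟫_ℂ := by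
  induction k with
  | zero => simp
  | succ k ih => rw [Wp_succ, Wp_succ, W_inner, W'W, ih]

theorem Wp_norm (k : ℕ) (f : H2) : ‖(W ^ k) f‖ = ‖f‖ := by
  induction k with
  | zero => simp
  | succ k ih => rw [Wp_succ, norm_W, ih]

theorem orth_self (v : H2) (hn : ‖v‖ = 1) (hvv : ∀ m, ⟪v, (W ^ (m + 1)) v⟫_ℂ = 0) :
    Orthonormal ℂ (fun k => (W ^ k) v) := by
  refine ⟨fun k => by rw [Wp_norm, hn], ?_⟩
  intro i j hij
  change ⟪(W ^ i) v, (W ^ j) v⟫_ℂ = 0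
  rcases lt_or_gt_of_ne hij with h | h
  · obtain ⟨m, rfl⟩ : ∃ m, j = i + (m + 1) := ⟨j - i - 1, by omega⟩
    rw [Wp_add, Wp_inner, hvv]
  · obtain ⟨m, rfl⟩ : ∃ m, i = j + (m + 1) := ⟨i - j - 1, by omega⟩
    rw [Wp_add, Wp_inner, ← inner_conj_symm, hvv, map_zero]

theorem cross (u v : H2) (huv : ∀ m, ⟪u, (W ^ m) v⟫_ℂ = 0) (hvu : ∀ m, ⟪v, (W ^ m) u⟫_ℂ = 0)
    (k l : ℕ) : ⟪(W ^ k) v, (W ^ l) u⟫_ℂ = 0 := by
  rcases le_or_gt k l with h | h
  · obtain ⟨m, rfl⟩ : ∃ m, l = k + m := ⟨l - k, by omega⟩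
    rw [Wp_add, Wp_inner, hvu]
  · obtain ⟨m, rfl⟩ : ∃ m, k = l + m := ⟨k - l, by omega⟩
    rw [Wp_add, Wp_inner, ← inner_conj_symm, huv, map_zero]

theorem exists_conv (u v : H2) (hn : ‖v‖ = 1) (hv : V' v = 0)
    (hvv : ∀ m, ⟪v, (W ^ (m + 1)) v⟫_ℂ = 0) :
    ∃ X : H2, HasSum (fun k => u (0, k) • (W ^ k) v) X ∧ (∀ i l, X (i + 1, l) = 0) ∧
      ∀ l, X (0, l) = ∑ k ∈ Finset.range (l + 1), u (0, k) * v (0, l - k) := by
  have he := orth_self v hn hvv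
  have hs : Summable (fun k => u (0, k) • (W ^ k) v) := by
    have h1 := (he.orthogonalFamily.summable_iff_norm_sq_summable (fun k => u (0, k))).2
      (row_summable u 0)
    exact h1
  obtain ⟨X, hX⟩ := hs
  refine ⟨X, hX, ?_, ?_⟩
  · intro i l
    have h1 := (lp.evalCLM ℂ (fun _ : ℕ × ℕ => ℂ) 2 (i + 1, l)).hasSum hX
    have h2 : (fun k => (lp.evalCLM ℂ (fun _ : ℕ × ℕ => ℂ) 2 (i + 1, l))
        (u (0, k) • (W ^ k) v)) = fun _ => 0 := by
      funext k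
      change u (0, k) * (W ^ k) v (i + 1, l) = 0
      rw [Wp_apply]
      by_cases h : k ≤ l
      · rw [if_pos h]
        have h3 : V' v (i, l - k) = 0 := by rw [hv]; rfl
        rw [V'_apply] at h3
        rw [h3, mul_zero]
      · rw [if_neg h, mul_zero]
    have h3 : HasSum (fun k => (lp.evalCLM ℂ (fun _ : ℕ × ℕ => ℂ) 2 (i + 1, l))
        (u (0, k) • (W ^ k) v)) (X (i + 1, l)) := h1
    rw [h2] at h3
    exact h3.unique hasSum_zero
  · intro l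
    have h1 := (lp.evalCLM ℂ (fun _ : ℕ × ℕ => ℂ) 2 (0, l)).hasSum hX
    have h3 : HasSum (fun k => u (0, k) * (W ^ k) v (0, l)) (X (0, l)) := h1
    have h4 : HasSum (fun k => u (0, k) * (W ^ k) v (0, l))
        (∑ k ∈ Finset.range (l + 1), u (0, k) * (W ^ k) v (0, l)) := by
      refine hasSum_sum_of_ne_finset_zero fun k hk => ?_
      rw [Finset.mem_range] at hk
      rw [Wp_apply, if_neg (by omega), mul_zero]
    rw [h3.unique h4]
    refine Finset.sum_congr rfl fun k hk => ?_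
    rw [Finset.mem_range] at hk
    rw [Wp_apply, if_pos (by omega)]

theorem onedim1 (u v : H2) (hu : V' u = 0) (hv : V' v = 0) (hnu : ‖u‖ = 1) (hnv : ‖v‖ = 1)
    (huu : ∀ m, ⟪u, (W ^ (m + 1)) u⟫_ℂ = 0) (hvv : ∀ m, ⟪v, (W ^ (m + 1)) v⟫_ℂ = 0)
    (huv : ∀ m, ⟪u, (W ^ m) v⟫_ℂ = 0) (hvu : ∀ m, ⟪v, (W ^ m) u⟫_ℂ = 0) : False := by
  obtain ⟨X, hX, hX1, hX0⟩ := exists_conv u v hnv hv hvv
  obtain ⟨Y, hY, hY1, hY0⟩ := exists_conv v u hnu hu huu
  set A : PowerSeries ℂ := PowerSeries.mk fun k => u (0, k) with hA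
  set C : PowerSeries ℂ := PowerSeries.mk fun k => v (0, k) with hC
  have cX : ∀ l, X (0, l) = PowerSeries.coeff l (A * C) := by
    intro l
    rw [hX0, PowerSeries.coeff_mul,
      Finset.Nat.sum_antidiagonal_eq_sum_range_succ
        (fun i j => PowerSeries.coeff i A * PowerSeries.coeff j C)]
    simp only [hA, hC, PowerSeries.coeff_mk, Nat.succ_eq_add_one]
  have cY : ∀ l, Y (0, l) = PowerSeries.coeff l (C * A) := by
    intro l
    rw [hY0, PowerSeries.coeff_mul,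
      Finset.Nat.sum_antidiagonal_eq_sum_range_succ
        (fun i j => PowerSeries.coeff i C * PowerSeries.coeff j A)]
    simp only [hA, hC, PowerSeries.coeff_mk, Nat.succ_eq_add_one]
  have hXY : X = Y := by
    ext ⟨i, l⟩
    rcases i with _ | i
    · rw [cX, cY, mul_comm]
    · rw [hX1, hY1]
  have h1 : ∀ k, ⟪(W ^ k) v, Y⟫_ℂ = 0 := by
    intro k
    have h2 : HasSum (fun l => ⟪(W ^ k) v, v (0, l) • (W ^ l) u⟫_ℂ) ⟪(W ^ k) v, Y⟫_ℂ :=
      (innerSL ℂ ((W ^ k) v)).hasSum hY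
    have h3 : (fun l => ⟪(W ^ k) v, v (0, l) • (W ^ l) u⟫_ℂ) = fun _ => 0 := by
      funext l
      rw [inner_smul_right, cross u v huv hvu, mul_zero]
    rw [h3] at h2
    exact h2.unique hasSum_zero
  have h4 : ⟪Y, X⟫_ℂ = 0 := by
    have h2 : HasSum (fun k => ⟪Y, u (0, k) • (W ^ k) v⟫_ℂ) ⟪Y, X⟫_ℂ :=
      (innerSL ℂ Y).hasSum hX
    have h3 : (fun k => ⟪Y, u (0, k) • (W ^ k) v⟫_ℂ) = fun _ => 0 := by
      funext k
      rw [inner_smul_right, ← inner_conj_symm, h1, map_zero, mul_zero]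
    rw [h3] at h2
    exact h2.unique hasSum_zero
  rw [← hXY] at h4
  have h5 : X = 0 := inner_self_eq_zero.1 h4
  have h6 : A * C = 0 := by
    ext l
    rw [← cX, h5]
    simp
  have zero_of : ∀ w : H2, V' w = 0 → (PowerSeries.mk fun k => w (0, k)) = (0 : PowerSeries ℂ) →
      w = 0 := by
    intro w hw h
    ext ⟨i, l⟩
    rcases i with _ | i
    · have := congrArg (PowerSeries.coeff l) h
      rw [PowerSeries.coeff_mk] at this
      rw [this]; simp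
    · have h3 : V' w (i, l) = 0 := by rw [hw]; rfl
      rw [V'_apply] at h3
      rw [h3]; rfl
  rcases mul_eq_zero.1 h6 with h | h
  · rw [zero_of u hu h, norm_zero] at hnu; norm_num at hnu
  · rw [zero_of v hv h, norm_zero] at hnv; norm_num at hnv

theorem onedim (u v : H2) (hu : V' u = 0) (hv : V' v = 0)
    (huu : ∀ m, ⟪u, (W ^ (m + 1)) u⟫_ℂ = 0) (hvv : ∀ m, ⟪v, (W ^ (m + 1)) v⟫_ℂ = 0)
    (huv : ∀ m, ⟪u, (W ^ m) v⟫_ℂ = 0) (hvu : ∀ m, ⟪v, (W ^ m) u⟫_ℂ = 0) (hu0 : u ≠ 0) :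
    v = 0 := by
  by_contra hv0
  have nu : ‖u‖ ≠ 0 := norm_ne_zero_iff.2 hu0
  have nv : ‖v‖ ≠ 0 := norm_ne_zero_iff.2 hv0
  have unit : ∀ w : H2, ‖w‖ ≠ 0 → ‖(((‖w‖⁻¹ : ℝ) : ℂ)) • w‖ = 1 := by
    intro w hw
    rw [norm_smul, Complex.norm_real, norm_inv, norm_norm, inv_mul_cancel₀ hw]
  refine onedim1 (((‖u‖⁻¹ : ℝ) : ℂ) • u) (((‖v‖⁻¹ : ℝ) : ℂ) • v) ?_ ?_ (unit u nu) (unit v nv)
    ?_ ?_ ?_ ?_
  · rw [map_smul, hu, smul_zero]
  · rw [map_smul, hv, smul_zero]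
  all_goals
    intro m
    rw [map_smul, inner_smul_left, inner_smul_right]
  · rw [huu, mul_zero, mul_zero]
  · rw [hvv, mul_zero, mul_zero]
  · rw [huv, mul_zero, mul_zero]
  · rw [hvu, mul_zero, mul_zero]

end

end Pool.Agent.X202.Agl
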