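import Pool.Agent.X202.Agl.Ker

set_option autoImplicit false

open scoped InnerProductSpace ENNReal ComplexConjugate
open Filter Topology

namespace Pool.Agent.X202.Agl

noncomputable section

/-- Szegő kernel -/
def szk (z w : ℂ × ℂ) : ℂ := 1 / ((1 - z.1 * conj w.1) * (1 - z.2 * conj w.2))

theorem exists_sz (w : ℂ × ℂ) (hw : w ∈ bidisk) :
    ∃ k : H2, ∀ n : ℕ × ℕ, k n = conj w.1 ^ n.1 * conj w.2 ^ n.2 := by
  have hm : Memℓp (E := fun _ : ℕ × ℕ => ℂ) (fun n : ℕ × ℕ => conj w.1 ^ n.1 * conj w.2 ^ n.2) 2 := by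
    rw [memℓp_gen_iff (by norm_num)]
    have h2 : (2 : ℝ≥0∞).toReal = 2 := by norm_num
    simp only [h2, Real.rpow_two]
    have hq : ∀ a : ℂ, ‖a‖ < 1 → ‖a‖ ^ 2 < 1 := fun a ha => by nlinarith [norm_nonneg a]
    have h1 := (summable_geometric_of_lt_one (by positivity) (hq _ hw.1)).mul_of_nonneg
      (summable_geometric_of_lt_one (by positivity) (hq _ hw.2)) (fun _ => by positivity)
      (fun _ => by positivity)
    refine h1.congr fun n => ?_
    rw [norm_mul, norm_pow, norm_pow, Complex.norm_conj, Complex.norm_conj, mul_pow, ← pow_mul,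
      ← pow_mul, ← pow_mul, ← pow_mul, mul_comm 2, mul_comm 2]
  exact ⟨⟨_, hm⟩, fun n => rfl⟩

/-- the Szegő kernel function -/
def sz (w : ℂ × ℂ) : H2 := by
  classical
  exact if hw : w ∈ bidisk then (exists_sz w hw).choose else 0

theorem sz_apply (w : ℂ × ℂ) (hw : w ∈ bidisk) (n : ℕ × ℕ) :
    sz w n = conj w.1 ^ n.1 * conj w.2 ^ n.2 := by
  unfold sz
  rw [dif_pos hw]
  exact (exists_sz w hw).choose_spec n

theorem sz_inner (w : ℂ × ℂ) (hw : w ∈ bidisk) (f : H2) : ⟪sz w, f⟫_ℂ = val f w := by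
  rw [lp.inner_eq_tsum]
  unfold val
  refine tsum_congr fun n => ?_
  rw [RCLike.inner_apply, sz_apply w hw, map_mul, map_pow, map_pow, Complex.conj_conj,
    Complex.conj_conj]
  ring

theorem val_sz (z w : ℂ × ℂ) (hz : z ∈ bidisk) (hw : w ∈ bidisk) : val (sz w) z = szk z w := by
  have hlt : ∀ a b : ℂ, ‖a‖ < 1 → ‖b‖ < 1 → ‖a * conj b‖ < 1 := by
    intro a b ha hb
    rw [norm_mul, Complex.norm_conj]
    nlinarith [norm_nonneg a, norm_nonneg b]
  have h1 := hlt z.1 w.1 hz.1 hw.1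
  have h2 := hlt z.2 w.2 hz.2 hw.2
  have hs : ∀ a : ℂ, ‖a‖ < 1 → Summable (fun n : ℕ => ‖a ^ n‖) := by
    intro a ha
    simp only [norm_pow]
    exact summable_geometric_of_lt_one (norm_nonneg _) ha
  have h3 := tsum_mul_tsum_of_summable_norm (hs _ h1) (hs _ h2)
  rw [tsum_geometric_of_norm_lt_one h1, tsum_geometric_of_norm_lt_one h2] at h3
  unfold szk
  rw [one_div, mul_inv, h3]
  unfold val
  refine tsum_congr fun n => ?_
  rw [sz_apply w hw, mul_pow, mul_pow]; ring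

theorem sz_sz (z w : ℂ × ℂ) (hz : z ∈ bidisk) (hw : w ∈ bidisk) : ⟪sz z, sz w⟫_ℂ = szk z w := by
  rw [sz_inner z hz, val_sz z w hz hw]

theorem riesz (F : ℂ × ℂ → ℂ) (C : ℝ) (hC : 0 ≤ C)
    (h : Pos fun z w => (C : ℂ) * szk z w - F z * conj (F w)) :
    ∃ f : H2, ∀ z ∈ bidisk, val f z = F z := by
  set T : (bidisk →₀ ℂ) →ₗ[ℂ] H2 := Finsupp.linearCombination ℂ (fun z : bidisk => sz z) with hT
  set L : (bidisk →₀ ℂ) →ₗ[ℂ] ℂ := Finsupp.linearCombination ℂ (fun z : bidisk => conj (F z))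
    with hL
  have hbound : ∀ d, ‖L d‖ ^ 2 ≤ C * ‖T d‖ ^ 2 := by
    intro d
    have h1 := h.2 d.support (fun i => (i : bidisk)) (fun i => conj (d i)) (fun i => i.1.2)
    have e1 : T d = ∑ i : d.support, d i • sz (i : bidisk) := by
      rw [hT, Finsupp.linearCombination_apply, Finsupp.sum,
        ← Finset.sum_coe_sort d.support (fun i => d i • sz (i : ℂ × ℂ))]
    have e2 : L d = ∑ i : d.support, d i * conj (F (i : bidisk)) := by
      rw [hL, Finsupp.linearCombination_apply, Finsupp.sum,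
        ← Finset.sum_coe_sort d.support]
      rfl
    have e3 : ⟪T d, T d⟫_ℂ = ∑ i : d.support, ∑ j : d.support,
        conj (d i) * conj (conj (d j)) * szk (i : bidisk) (j : bidisk) := by
      rw [e1, sum_inner]
      refine Finset.sum_congr rfl fun i _ => ?_
      rw [inner_sum]
      refine Finset.sum_congr rfl fun j _ => ?_
      rw [inner_smul_left, inner_smul_right, sz_sz _ _ i.1.2 j.1.2, Complex.conj_conj]
      ring
    have e4 : conj (L d) * L d = ∑ i : d.support, ∑ j : d.support,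
        conj (d i) * conj (conj (d j)) * (F (i : bidisk) * conj (F (j : bidisk))) := by
      rw [e2, map_sum, Finset.sum_mul_sum]
      refine Finset.sum_congr rfl fun i _ => Finset.sum_congr rfl fun j _ => ?_
      rw [map_mul, Complex.conj_conj, Complex.conj_conj]; ring
    have e5 : (∑ i : d.support, ∑ j : d.support, conj (d i) * conj (conj (d j)) *
        ((C : ℂ) * szk (i : bidisk) (j : bidisk) - F (i : bidisk) * conj (F (j : bidisk)))) =
        (C : ℂ) * ⟪T d, T d⟫_ℂ - conj (L d) * L d := by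
      rw [e3, e4, Finset.mul_sum, ← Finset.sum_sub_distrib]
      refine Finset.sum_congr rfl fun i _ => ?_
      rw [Finset.mul_sum, ← Finset.sum_sub_distrib]
      refine Finset.sum_congr rfl fun j _ => ?_
      ring
    have h2 : 0 ≤ ((C : ℂ) * ⟪T d, T d⟫_ℂ - conj (L d) * L d).re := by
      rw [← e5]; exact h1
    have e6 : (⟪T d, T d⟫_ℂ).re = ‖T d‖ ^ 2 := by
      rw [inner_self_eq_norm_sq_to_K]; norm_cast
    have e7 : (conj (L d) * L d).re = ‖L d‖ ^ 2 := by
      rw [mul_comm, Complex.mul_conj, Complex.normSq_eq_norm_sq, Complex.ofReal_re]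
    rw [Complex.sub_re, Complex.re_ofReal_mul, e6, e7] at h2
    linarith
  obtain ⟨S, hS⟩ := LinearMap.exists_rightInverse_of_surjective T.rangeRestrict
    (LinearMap.range_rangeRestrict T)
  have hS' : ∀ r, T (S r) = r := by
    intro r
    have := congrArg (fun g => ((g r : LinearMap.range T) : H2)) hS
    exact this
  set ℓ : LinearMap.range T →ₗ[ℂ] ℂ := L ∘ₗ S with hℓ
  have hℓb : ∀ r, ‖ℓ r‖ ≤ Real.sqrt C * ‖r‖ := by
    intro r
    have h1 := hbound (S r)
    rw [hS'] at h1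
    have h2 : ‖ℓ r‖ ^ 2 ≤ (Real.sqrt C * ‖r‖) ^ 2 := by
      rw [mul_pow, Real.sq_sqrt hC]; exact h1
    exact (pow_le_pow_iff_left₀ (norm_nonneg _) (by positivity) (by norm_num)).1 h2
  obtain ⟨g, hg, -⟩ := exists_extension_norm_eq (LinearMap.range T)
    (ℓ.mkContinuous (Real.sqrt C) hℓb)
  refine ⟨(InnerProductSpace.toDual ℂ H2).symm g, fun z hz => ?_⟩
  rw [← sz_inner z hz, ← inner_conj_symm, InnerProductSpace.toDual_symm_apply]
  set d : bidisk →₀ ℂ := Finsupp.single ⟨z, hz⟩ 1 with hd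
  have h1 : T d = sz z := by
    rw [hT, hd, Finsupp.linearCombination_single, one_smul]
  have h2 : L d = conj (F z) := by
    rw [hL, hd, Finsupp.linearCombination_single, one_smul]
  have h3 := hg ⟨T d, ⟨d, rfl⟩⟩
  have h4 : ℓ ⟨T d, ⟨d, rfl⟩⟩ = L d := by
    have h5 : T (S ⟨T d, ⟨d, rfl⟩⟩ - d) = 0 := by
      rw [map_sub, hS']
      exact sub_self _
    have h6 := hbound (S ⟨T d, ⟨d, rfl⟩⟩ - d)
    rw [h5, norm_zero] at h6
    have h7 : ‖L (S ⟨T d, ⟨d, rfl⟩⟩ - d)‖ = 0 := by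
      nlinarith [norm_nonneg (L (S ⟨T d, ⟨d, rfl⟩⟩ - d))]
    rw [norm_eq_zero, map_sub, sub_eq_zero] at h7
    exact h7
  have h8 : g (sz z) = conj (F z) := by
    rw [← h1, ← h2, ← h4]
    exact h3
  rw [h8, Complex.conj_conj]

end

end Pool.Agent.X202.Agl
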