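import Pool.Agent.X202.Agl.R

set_option autoImplicit false

open scoped InnerProductSpace ENNReal ComplexConjugate
open Filter Topology

namespace Pool.Agent.X202.Agl

noncomputable section

theorem norm_sq_of_proj (f s : H2) (h : ⟪s, f - s⟫_ℂ = 0) : ⟪s, f⟫_ℂ = ⟪s, s⟫_ℂ := by
  rw [inner_sub_right, sub_eq_zero] at h
  exact h

/-- the core of the argument: `K` a subspace, `M1`, `M2` subspaces of `K` -/
structure Data (M : H2 → H2) (K M1 M2 : Submodule ℂ H2) : Prop where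
  isom : ∀ f g, ⟪M f, M g⟫_ℂ = ⟪f, g⟫_ℂ
  MV : ∀ f, M (V f) = V (M f)
  MW : ∀ f, M (W f) = W (M f)
  memK : ∀ h, h ∈ K ↔ ∀ f, ⟪M f, h⟫_ℂ = 0
  closedK : IsClosed (K : Set H2)
  le1 : M1 ≤ K
  le2 : M2 ≤ K
  inv1 : ∀ f ∈ M1, V f ∈ M1
  inv2 : ∀ f ∈ M2, W f ∈ M2
  red : ∀ f ∈ M2, ∀ s ∈ K, (∀ h ∈ K, ⟪h, V f - s⟫_ℂ = 0) → s ∈ M2
  red' : ∀ f ∈ M2, V' f ∈ M2
  dense : ∀ h ∈ K, (∀ m ∈ M1, ⟪m, h⟫_ℂ = 0) → (∀ m ∈ M2, ⟪m, h⟫_ℂ = 0) → h = 0

variable {M : H2 → H2} {K M1 M2 : Submodule ℂ H2}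

theorem Data.KV' (D : Data M K M1 M2) (h : H2) (hh : h ∈ K) : V' h ∈ K := by
  rw [D.memK] at hh ⊢
  intro f
  rw [← V_inner, ← D.MV, hh]

theorem Data.KW' (D : Data M K M1 M2) (h : H2) (hh : h ∈ K) : W' h ∈ K := by
  rw [D.memK] at hh ⊢
  intro f
  rw [← W_inner, ← D.MW, hh]

/-- `N = K ⊖ M2` -/
def NN (K M2 : Submodule ℂ H2) : Submodule ℂ H2 := K ⊓ M2ᗮ

theorem mem_NN (f : H2) : f ∈ NN K M2 ↔ f ∈ K ∧ ∀ m ∈ M2, ⟪m, f⟫_ℂ = 0 := Iff.rfl

theorem Data.NV' (D : Data M K M1 M2) (f : H2) (hf : f ∈ NN K M2) : V' f ∈ NN K M2 := by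
  rw [mem_NN] at hf ⊢
  refine ⟨D.KV' f hf.1, fun m hm => ?_⟩
  haveI : CompleteSpace K := D.closedK.completeSpace_coe
  set s := K.starProjection (V m) with hs
  have hsK : s ∈ K := Submodule.starProjection_apply_mem _ _
  have hso : ∀ h ∈ K, ⟪h, V m - s⟫_ℂ = 0 := fun h hh =>
    Submodule.sub_starProjection_mem_orthogonal (V m) h hh
  have h1 := D.red m hm s hsK hso
  have h2 : ⟪V m - s, f⟫_ℂ = 0 := by
    rw [← inner_conj_symm, hso f hf.1, map_zero]
  rw [inner_sub_left, sub_eq_zero] at h2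
  rw [← V_inner, h2, hf.2 s h1]

theorem Data.NW' (D : Data M K M1 M2) (f : H2) (hf : f ∈ NN K M2) : W' f ∈ NN K M2 := by
  rw [mem_NN] at hf ⊢
  refine ⟨D.KW' f hf.1, fun m hm => ?_⟩
  rw [← W_inner, hf.2 _ (D.inv2 m hm)]

theorem Data.NV (D : Data M K M1 M2) (f : H2) (hf : f ∈ NN K M2) : V f ∈ NN K M2 := by
  have hf' := hf
  rw [mem_NN] at hf
  haveI : CompleteSpace K := D.closedK.completeSpace_coe
  set s := K.starProjection (V f) with hs
  have hsK : s ∈ K := Submodule.starProjection_apply_mem _ _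
  have hso : ∀ h ∈ K, ⟪h, V f - s⟫_ℂ = 0 := fun h hh =>
    Submodule.sub_starProjection_mem_orthogonal (V f) h hh
  have hso' : ∀ h ∈ K, ⟪h, s⟫_ℂ = ⟪h, V f⟫_ℂ := by
    intro h hh
    have := hso h hh
    rw [inner_sub_right, sub_eq_zero] at this
    exact this.symm
  have he : V' s - f = 0 := by
    apply D.dense
    · exact K.sub_mem (D.KV' s hsK) hf.1
    · intro m hm
      rw [inner_sub_right, ← V_inner, hso' _ (D.le1 (D.inv1 m hm)), V_inner, V'V, sub_self]
    · intro m hm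
      set t := K.starProjection (V m) with ht
      have htK : t ∈ K := Submodule.starProjection_apply_mem _ _
      have hto : ∀ h ∈ K, ⟪h, V m - t⟫_ℂ = 0 := fun h hh =>
        Submodule.sub_starProjection_mem_orthogonal (V m) h hh
      have h1 := D.red m hm t htK hto
      have h2 : ⟪V m - t, s⟫_ℂ = 0 := by
        rw [← inner_conj_symm, hto s hsK, map_zero]
      rw [inner_sub_left, sub_eq_zero] at h2
      rw [inner_sub_right, ← V_inner, h2, hf.2 m hm, hso' t htK, ← V'_inner,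
        hf.2 _ (D.red' t h1), sub_zero]
  have he' : V' s = f := sub_eq_zero.1 he
  have h3 : ⟪s, s⟫_ℂ = ⟪V f, V f⟫_ℂ := by
    rw [hso' s hsK, ← V'_inner, he', V_inner, V'V]
  have h4 : ⟪V f - s, V f - s⟫_ℂ = 0 := by
    have h5 : ⟪V f, s⟫_ℂ = ⟪s, s⟫_ℂ := by
      rw [← inner_conj_symm, ← hso' s hsK, inner_conj_symm]
    rw [inner_sub_left, inner_sub_right, inner_sub_right, ← hso' s hsK, h5, h3]
    ring
  have h6 : V f = s := sub_eq_zero.1 (inner_self_eq_zero.1 h4)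
  rw [mem_NN]
  refine ⟨by rw [h6]; exact hsK, fun m hm => ?_⟩
  rw [← V'_inner, hf.2 _ (D.red' m hm)]

/-- powers -/
theorem Vp_succ' (k : ℕ) (f : H2) : (V' ^ (k + 1)) f = V' ((V' ^ k) f) := by
  rw [pow_succ']; rfl

theorem Data.NVp (D : Data M K M1 M2) (k : ℕ) (f : H2) (hf : f ∈ NN K M2) :
    (V' ^ k) f ∈ NN K M2 := by
  induction k with
  | zero => simpa using hf
  | succ k ih => rw [Vp_succ']; exact D.NV' _ ih

/-- the `k`-th row as a function of the second variable -/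
def row (x : H2) (k : ℕ) : H2 := (V' ^ k) x - V (V' ((V' ^ k) x))

theorem Vp_apply (k : ℕ) (f : H2) (l : ℕ) : ∀ j : ℕ, (V' ^ k) f (j, l) = f (j + k, l) := by
  induction k with
  | zero => intro j; simp
  | succ k ih => intro j; rw [Vp_succ', V'_apply, ih, show j + 1 + k = j + (k + 1) by omega]

theorem row_apply (x : H2) (k l : ℕ) : row x k (0, l) = x (k, l) := by
  change (V' ^ k) x (0, l) - V (V' ((V' ^ k) x)) (0, l) = _
  rw [V_zero, Vp_apply, sub_zero, zero_add]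

theorem V'row (x : H2) (k : ℕ) : V' (row x k) = 0 := by
  rw [row, map_sub, V'V, sub_self]

theorem W'Vp (k : ℕ) (f : H2) : W' ((V' ^ k) f) = (V' ^ k) (W' f) := by
  induction k with
  | zero => simp
  | succ k ih => rw [Vp_succ', W'V', ih, Vp_succ']

theorem W'row (x : H2) (k : ℕ) : W' (row x k) = row (W' x) k := by
  rw [row, row, map_sub, W'V, W'V', W'Vp]

theorem V'one' : V' one = 0 := V'one

theorem W'one : W' one = 0 := by
  classical
  ext ⟨k, l⟩
  rw [W'_apply]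
  simp [one]

theorem Data.rows (D : Data M K M1 M2) (k l m : ℕ) :
    ⟪row (M one) k, (W ^ (m + 1)) (row (M one) l)⟫_ℂ = 0 := by
  set x := M one with hx
  -- x is orthogonal to N
  have hxN : ∀ f ∈ NN K M2, ⟪f, x⟫_ℂ = 0 := by
    intro f hf
    rw [← inner_conj_symm, (D.memK f).1 hf.1, map_zero]
  have hWx : W' x ∈ NN K M2 := by
    rw [mem_NN, D.memK]
    refine ⟨fun f => ?_, fun m hm => ?_⟩
    · rw [← W_inner, ← D.MW, hx, D.isom, W_inner, W'one, inner_zero_right]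
    · rw [← W_inner, ← inner_conj_symm, (D.memK _).1 (D.le2 (D.inv2 m hm)), map_zero]
  have hrow : ∀ f ∈ NN K M2, row f k ∈ NN K M2 := by
    intro f hf
    have h1 := D.NVp k f hf
    exact (NN K M2).sub_mem h1 (D.NV _ (D.NV' _ h1))
  have h1 : W' (row x k) ∈ NN K M2 := by rw [W'row]; exact hrow _ hWx
  have hWp : ∀ m : ℕ, ∀ f ∈ NN K M2, ∀ g : H2, (∀ f ∈ NN K M2, ⟪f, g⟫_ℂ = 0) →
      ⟪f, (W ^ m) g⟫_ℂ = 0 := by
    intro m
    induction m with
    | zero => intro f hf g hg; simpa using hg f hf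
    | succ m ih =>
      intro f hf g hg
      rw [Wp_succ, ← W'_inner]
      exact ih _ (D.NW' f hf) g hg
  rw [Wp_succ, ← W'_inner]
  refine hWp m _ h1 _ ?_
  intro f hf
  rw [row, inner_sub_right, ← V'_inner]
  have hpow : ∀ k : ℕ, ∀ f ∈ NN K M2, ⟪f, (V' ^ k) x⟫_ℂ = 0 := by
    intro k
    induction k with
    | zero => intro f hf; simpa using hxN f hf
    | succ k ih =>
      intro f hf
      rw [Vp_succ', ← V_inner]
      exact ih _ (D.NV f hf)
  rw [hpow l f hf, ← V_inner, hpow l _ (D.NV _ (D.NV' f hf)), sub_zero]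

theorem Data.main (D : Data M K M1 M2) : ∃ (ψ : ℕ → ℂ) (c : ℕ → ℂ) (k0 l0 : ℕ), ψ l0 ≠ 0 ∧
    (∀ j, ψ j = M one (k0, j)) ∧ ∀ k l, M one (k, l) = c k * ψ l := by
  set x := M one with hx
  have hx0 : x ≠ 0 := by
    intro h
    have h1 := D.isom one one
    rw [← hx, h, inner_zero_left] at h1
    have h2 : one = 0 := inner_self_eq_zero.1 h1.symm
    have h3 := one_zero
    rw [h2] at h3
    have h4 : (0 : H2) (0, 0) = 0 := rfl
    rw [h4] at h3
    exact zero_ne_one h3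
  obtain ⟨k0, hk0⟩ : ∃ k, row x k ≠ 0 := by
    by_contra hno
    push Not at hno
    apply hx0
    ext ⟨k, l⟩
    rw [← row_apply, hno]; rfl
  set u := row x k0 with hu
  have hR := D.rows
  rw [← hx] at hR
  have hprop : ∀ k, ∃ c : ℂ, row x k = c • u := by
    intro k
    have hnu : ⟪u, u⟫_ℂ ≠ 0 := fun h => hk0 (inner_self_eq_zero.1 h)
    set c : ℂ := ⟪u, row x k⟫_ℂ / ⟪u, u⟫_ℂ with hc
    refine ⟨c, ?_⟩
    rw [← sub_eq_zero]
    have e0 : ⟪u, row x k - c • u⟫_ℂ = 0 := by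
      rw [inner_sub_right, inner_smul_right, hc, div_mul_cancel₀ _ hnu, sub_self]
    have e0' : ⟪row x k - c • u, u⟫_ℂ = 0 := by
      rw [← inner_conj_symm, e0, map_zero]
    refine onedim u (row x k - c • u) (V'row x k0) ?_ (hR k0 k0) ?_ ?_ ?_ hk0
    · rw [map_sub, map_smul, hu, V'row, V'row, smul_zero, sub_zero]
    · intro m
      rw [map_sub, map_smul, inner_sub_left, inner_sub_right, inner_sub_right, inner_smul_left,
        inner_smul_left, inner_smul_right, inner_smul_right, hu, hR, hR, hR, hR]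
      ring
    · intro m
      rcases m with _ | m
      · simpa using e0
      · rw [map_sub, map_smul, inner_sub_right, inner_smul_right, hu, hR, hR]; ring
    · intro m
      rcases m with _ | m
      · simpa using e0'
      · rw [inner_sub_left, inner_smul_left, hu, hR, hR]; ring
  choose c hc using hprop
  have hul : ∃ l, u (0, l) ≠ 0 := by
    by_contra hno
    push Not at hno
    apply hk0
    ext ⟨i, l⟩
    rcases i with _ | i
    · exact hno l
    · have h3 : V' u (i, l) = 0 := by rw [hu, V'row]; rfl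
      rw [V'_apply] at h3
      exact h3
  obtain ⟨l0, hl0⟩ := hul
  refine ⟨fun l => u (0, l), c, k0, l0, hl0, fun j => ?_, fun k l => ?_⟩
  · rw [← row_apply]
  · rw [← row_apply, hc]; rfl

end

end Pool.Agent.X202.Agl
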