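import Pool.Agent.X202.Agl.T

set_option autoImplicit false

open scoped InnerProductSpace ENNReal ComplexConjugate
open Filter Topology

namespace Pool.Agent.X202.Agl

noncomputable section

/-- multiplication by `θ` is an isometry -/
def Inn (θ : ℂ × ℂ → ℂ) : Prop := ∀ f : H2, ∃ g : H2, Times θ f g ∧ ‖g‖ = ‖f‖

theorem times_unique {θ : ℂ × ℂ → ℂ} {f g g' : H2} (h : Times θ f g) (h' : Times θ f g') :
    g = g' := val_inj _ _ fun z hz => by rw [h z hz, h' z hz]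

theorem exists_mul {θ : ℂ × ℂ → ℂ} (hθ : Inn θ) :
    ∃ M : H2 →ₗᵢ[ℂ] H2, ∀ f, Times θ f (M f) := by
  choose M hM hn using hθ
  refine ⟨⟨⟨⟨M, ?_⟩, ?_⟩, hn⟩, hM⟩
  · intro f g
    refine times_unique (hM (f + g)) fun z hz => ?_
    rw [val_add _ _ _ hz, val_add _ _ _ hz, hM f z hz, hM g z hz]; ring
  · intro c f
    refine times_unique (hM (c • f)) fun z hz => ?_
    rw [RingHom.id_apply, val_smul, val_smul, hM f z hz]; ring

/-- the model space as a submodule -/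
def KS (θ : ℂ × ℂ → ℂ) : Submodule ℂ H2 where
  carrier := KK θ
  add_mem' := by
    intro a b ha hb f g hfg
    rw [inner_add_right, ha f g hfg, hb f g hfg, add_zero]
  zero_mem' := by intro f g _; exact inner_zero_right _
  smul_mem' := by
    intro c a ha f g hfg
    rw [inner_smul_right, ha f g hfg, mul_zero]

theorem KS_closed (θ : ℂ × ℂ → ℂ) : IsClosed (KS θ : Set H2) := by
  have : (KS θ : Set H2) = ⋂ f : H2, ⋂ g : H2, ⋂ _ : Times θ f g, {h : H2 | ⟪g, h⟫_ℂ = 0} := by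
    ext h
    simp only [Set.mem_iInter]
    rfl
  rw [this]
  refine isClosed_iInter fun f => isClosed_iInter fun g => isClosed_iInter fun _ => ?_
  exact isClosed_eq (continuous_const.inner continuous_id) continuous_const

theorem val_one (z : ℂ × ℂ) : val one z = 1 := by
  unfold val
  rw [tsum_eq_single (0, 0)]
  · rw [one_zero]; simp
  · rintro ⟨k, l⟩ h
    have : one (k, l) = 0 := by
      simp only [one, lp.single_apply]
      rw [Pi.single_eq_of_ne h]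
    rw [this]; ring

theorem factor {θ : ℂ × ℂ → ℂ} {K M1 M2 : Submodule ℂ H2} {M : H2 → H2}
    (hM : ∀ f, Times θ f (M f)) (D : Data M K M1 M2) :
    ∃ φ ψ : ℂ → ℂ, ∀ z ∈ bidisk, θ z = φ z.1 * ψ z.2 := by
  obtain ⟨ψ, c, k0, l0, hl0, hψ, hc⟩ := D.main
  set x := M one with hx
  have hb : ∀ n, ‖x n‖ ≤ ‖x‖ := fun n => lp.norm_apply_le_norm (by norm_num) x n
  have bψ : ∀ l, ‖ψ l‖ ≤ ‖x‖ := fun l => by rw [hψ]; exact hb _
  have bc : ∀ k, ‖c k‖ ≤ ‖x‖ / ‖ψ l0‖ := by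
    intro k
    rw [le_div_iff₀ (norm_pos_iff.2 hl0), ← norm_mul, ← hc]
    exact hb _
  have hsum : ∀ (b : ℕ → ℂ) (C : ℝ), (∀ n, ‖b n‖ ≤ C) → ∀ z : ℂ, ‖z‖ < 1 →
      Summable (fun n => ‖b n * z ^ n‖) := by
    intro b C hb z hz
    refine Summable.of_nonneg_of_le (fun _ => norm_nonneg _) (fun n => ?_)
      ((summable_geometric_of_lt_one (norm_nonneg _) hz).mul_left C)
    rw [norm_mul, norm_pow]
    exact mul_le_mul_of_nonneg_right (hb n) (by positivity)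
  refine ⟨fun z => ∑' k, c k * z ^ k, fun z => ∑' l, ψ l * z ^ l, fun z hz => ?_⟩
  have h1 : θ z = val x z := by
    rw [hx, hM one z hz, val_one, mul_one]
  rw [h1]
  change _ = (∑' k, c k * z.1 ^ k) * ∑' l, ψ l * z.2 ^ l
  rw [tsum_mul_tsum_of_summable_norm (hsum c _ bc z.1 hz.1) (hsum ψ _ bψ z.2 hz.2)]
  unfold val
  refine tsum_congr fun n => ?_
  rcases n with ⟨k, l⟩
  change x (k, l) * z.1 ^ k * z.2 ^ l = _
  rw [hc]; ring

/-- the data for `θ` -/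
theorem mkData {θ : ℂ × ℂ → ℂ} (M : H2 →ₗᵢ[ℂ] H2) (hM : ∀ f, Times θ f (M f))
    (M1 M2 : Submodule ℂ H2) (le1 : M1 ≤ KS θ) (le2 : M2 ≤ KS θ)
    (inv1 : ∀ f ∈ M1, V f ∈ M1) (inv2 : ∀ f ∈ M2, W f ∈ M2)
    (red : ∀ f ∈ M2, ∀ s ∈ KS θ, (∀ h ∈ KS θ, ⟪h, V f - s⟫_ℂ = 0) → s ∈ M2)
    (red' : ∀ f ∈ M2, V' f ∈ M2)
    (dense : ∀ h ∈ KS θ, (∀ m ∈ M1, ⟪m, h⟫_ℂ = 0) → (∀ m ∈ M2, ⟪m, h⟫_ℂ = 0) → h = 0) :
    Data M (KS θ) M1 M2 where
  isom := M.inner_map_map
  MV f := by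
    refine times_unique (hM (V f)) fun z hz => ?_
    rw [val_V, val_V, hM f z hz]; ring
  MW f := by
    refine times_unique (hM (W f)) fun z hz => ?_
    rw [val_W, val_W, hM f z hz]; ring
  memK h := by
    constructor
    · intro hh f; exact hh f (M f) (hM f)
    · intro hh f g hfg
      rw [times_unique hfg (hM f)]; exact hh f
  closedK := KS_closed θ
  le1 := le1
  le2 := le2
  inv1 := inv1
  inv2 := inv2
  red := red
  red' := red'
  dense := dense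

end

end Pool.Agent.X202.Agl
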